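import Pool.Agent.Lib.H78D.Defs

/-!
# C0 (S): the theorem of H78C with ranks

PROOF.  As in Pool.Agent.Lib.H78C.Fin_charZero: `EF_exists (k := k) I` and `M2_main`.
-/

set_option autoImplicit false
open CategoryTheory IsLocalRing TensorProduct
open Pool.Agent.Lib.Helper92 Pool.Agent.Lib.H44V Pool.Agent.Lib.H78C Pool.Agent.Lib.H61E

namespace Pool.Agent.Lib.H78D
universe u

theorem C0_main {k S : Type u} [Field k] [CharZero k] [CommRing S] [Algebra k S]
    [Algebra.EssFiniteType k S] [IsLocalRing S] (I : Ideal S) (hI : I ≠ ⊤) (n : ℕ)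
    (hpd : PD S (S ⧸ I) n) (r : ℕ) (h : NF I r) : CI I r := by
  obtain ⟨A, _, _, hA, hflat, I₀, rfl⟩ := EF_exists (k := k) I
  have hchar : ∀ n : ℕ, n ≠ 0 → IsUnit (n : S) := by
    intro n hn
    have h1 : IsUnit ((n : k)) := (Nat.cast_ne_zero.mpr hn).isUnit
    have h2 := h1.map (algebraMap k S)
    simpa using h2
  exact M2_main hchar I₀ hI n hpd r h

end Pool.Agent.Lib.H78D
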