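import Pool.Agent.Lib.H78C.Fin
import Pool.Agent.Lib.H61E.Defs

/-!
# H78D (MP_fa772a_ag): all Noetherian local rings containing the rational numbers

Definitions.  `sp j`: the ideal generated by a finite family.  `Ex J D E`: the sequence
`(P/J)^a -D-> (P/J)^b -E-> (P/J)^c` is a complex and exact in the middle.  `Res J n c b E`: the kernel of
`E : (P/J)^b -> (P/J)^c` has a resolution of length `n` by matrices.  `Dat`: the matrices attached to
an ideal `I` of `S = P/J` of finite projective dimension and a basis of its normal module.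
-/

set_option autoImplicit false
open CategoryTheory IsLocalRing TensorProduct
open Pool.Agent.Lib.Helper92 Pool.Agent.Lib.H44V Pool.Agent.Lib.H78C Pool.Agent.Lib.H61E

namespace Pool.Agent.Lib.H78D
universe u

/-- the ideal generated by a finite family. -/
abbrev sp {P : Type u} [CommRing P] {a : ℕ} (j : Fin a → P) : Ideal P :=
  Ideal.span (Set.range j)

/-- a family as a matrix with one row. -/
def row1 {P : Type*} {b : ℕ} (g : Fin b → P) : Matrix (Fin 1) (Fin b) P := fun _ k => g k

/-- `(P/J)^a -D-> (P/J)^b -E-> (P/J)^c` is a complex, exact in the middle. -/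
def Ex {P : Type u} [CommRing P] (J : Ideal P) {a b c : ℕ} (D : Matrix (Fin b) (Fin a) P)
    (E : Matrix (Fin c) (Fin b) P) : Prop :=
  (∀ i k, (E * D) i k ∈ J) ∧ ExM J D E

/-- the kernel of `E` over `P/J` has a resolution of length `n`. -/
def Res {P : Type u} [CommRing P] (J : Ideal P) :
    ℕ → ∀ (c b : ℕ), Matrix (Fin c) (Fin b) P → Prop
  | 0, _, b, E => Ex J (0 : Matrix (Fin b) (Fin 0) P) E
  | n + 1, _, b, E => ∃ (a : ℕ) (D : Matrix (Fin b) (Fin a) P), Ex J D E ∧ Res J n b a D

/-- the matrices attached to `I = (g) ⊂ S = P/(j)` and a basis of the normal module with the values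
`H k i` of the `i`-th basis element at `g k`. -/
structure Dat {P : Type u} [CommRing P] (n : ℕ) {a b c r : ℕ} (j : Fin a → P) (g : Fin b → P)
    (A : Matrix (Fin b) (Fin c) P) (H : Matrix (Fin b) (Fin r) P) : Prop where
  e1 : Ex (sp j) A (row1 g)
  e2 : Res (sp j) n b c A
  e3 : Ex (sp (Fin.append j g)) (0 : Matrix (Fin r) (Fin 0) P) H
  e4 : Ex (sp (Fin.append j g)) H A.transpose

end Pool.Agent.Lib.H78D
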