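import Pool.Agent.Lib.H78D.Defs

/-!
# FL (M): quotients of a faithfully flat extension

PROOF.  `algebraMap (B ⧸ J) S := Ideal.Quotient.lift J (f.comp (algebraMap B P)) _` (the elements of `J` go
to `J P = ker f`).  `S ≃ₐ (B ⧸ J) ⊗[B] P`: base change of the faithfully flat `P` over `B`
(`Module.FaithfullyFlat` base change instance: `(B ⧸ J) ⊗[B] P` is faithfully flat over `B ⧸ J`;
`Module.FaithfullyFlat.of_linearEquiv` transports it along a `B ⧸ J`-linear equivalence).  The equivalence:
`P ⧸ J.map (algebraMap B P) ≃ (B ⧸ J) ⊗[B] P` (`Algebra.TensorProduct.quotIdealMapEquivTensorQuot`,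
compare H78C/A2 A2_quot: `Nonempty (S ⊗[A] (A ⧸ I) ≃ₗ[S] S ⧸ I.map ..)`, and H78C/N1 which does the same
inside its proof), and `P ⧸ ker f ≃ S` (`RingHom.quotientKerEquivOfSurjective`).
-/

set_option autoImplicit false
open CategoryTheory IsLocalRing TensorProduct
open Pool.Agent.Lib.Helper92 Pool.Agent.Lib.H44V Pool.Agent.Lib.H78C Pool.Agent.Lib.H61E

namespace Pool.Agent.Lib.H78D
universe u

theorem FL_main {B P S : Type u} [CommRing B] [CommRing P] [CommRing S] [Algebra B P]
    [Module.FaithfullyFlat B P] (J : Ideal B) (f : P →+* S) (hf : Function.Surjective f)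
    (hj : RingHom.ker f = J.map (algebraMap B P)) :
    ∃ _ : Algebra (B ⧸ J) S, Module.FaithfullyFlat (B ⧸ J) S ∧
      ∀ x : B, algebraMap (B ⧸ J) S (Ideal.Quotient.mk J x) = f (algebraMap B P x) := by
  have h0 : ∀ x ∈ J, (f.comp (algebraMap B P)) x = 0 := by
    intro x hx
    have h1 : algebraMap B P x ∈ RingHom.ker f := by
      rw [hj]
      exact Ideal.mem_map_of_mem _ hx
    exact RingHom.mem_ker.1 h1
  let φ : B ⧸ J →+* S := Ideal.Quotient.lift J (f.comp (algebraMap B P)) h0
  let _ : Algebra (B ⧸ J) S := φ.toAlgebra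
  refine ⟨inferInstance, ?_, fun x => rfl⟩
  -- the module isomorphism
  let _ : Algebra B S := (f.comp (algebraMap B P)).toAlgebra
  have : IsScalarTower B (B ⧸ J) S := IsScalarTower.of_algebraMap_eq fun x => rfl
  let g : P →ₗ[B] S :=
    { toFun := f
      map_add' := map_add f
      map_smul' := fun b x => by
        rw [Algebra.smul_def, map_mul]
        rfl }
  have hg : Function.Surjective g := hf
  have hker : (J • (⊤ : Submodule B P)) = LinearMap.ker g := by
    ext x
    rw [Ideal.smul_top_eq_map, Submodule.restrictScalars_mem, ← hj, RingHom.mem_ker,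
      LinearMap.mem_ker]
    rfl
  let e : ((B ⧸ J) ⊗[B] P) ≃ₗ[B] S :=
    (TensorProduct.quotTensorEquivQuotSMul P J).trans
      ((Submodule.quotEquivOfEq _ _ hker).trans (g.quotKerEquivOfSurjective hg))
  let e' : ((B ⧸ J) ⊗[B] P) ≃ₗ[B ⧸ J] S :=
    LinearEquiv.extendScalarsOfSurjective
      (show Function.Surjective (algebraMap B (B ⧸ J)) from Ideal.Quotient.mk_surjective) e
  exact Module.FaithfullyFlat.of_linearEquiv _ _ e'.symm

end Pool.Agent.Lib.H78D
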