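import Pool.Agent.Lib.H78D.U6B

/-!
# Fin: final theorems (all Noetherian local rings containing a field)
-/

set_option autoImplicit false
open CategoryTheory IsLocalRing TensorProduct
open Pool.Agent.Lib.Helper92 Pool.Agent.Lib.H44V Pool.Agent.Lib.H78C Pool.Agent.Lib.H61E

namespace Pool.Agent.Lib.H78D
universe u

theorem Fin_rat {S : Type u} [CommRing S] [IsNoetherianRing S] [IsLocalRing S] [Algebra ℚ S]
    (I : Ideal S) (hI : I ≠ ⊤)
    (hpd : ∃ n : ℕ, HasProjectiveDimensionLT (ModuleCat.of S I) n)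
    (hN : Module.Free (S ⧸ I) (I.Cotangent →ₗ[S ⧸ I] (S ⧸ I)) ∨
      ((∀ rs : List (S ⧸ I), RingTheory.Sequence.IsRegular (S ⧸ I) rs → rs.length ≤ 2) ∧
      ∃ n : ℕ, HasProjectiveDimensionLT
        (ModuleCat.of (S ⧸ I) (I.Cotangent →ₗ[S ⧸ I] (S ⧸ I))) n)) :
    ∃ rs : List S, Ideal.span {s : S | s ∈ rs} = I ∧ RingTheory.Sequence.IsRegular S rs := by
  have hfree : Module.Free (S ⧸ I) (I.Cotangent →ₗ[S ⧸ I] (S ⧸ I)) := by
    rcases hN with h | ⟨hd, h⟩
    · exact h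
    · exact Fin_free hI hd h
  obtain ⟨r, h, hb⟩ := exists_nbasis hI
  obtain ⟨n, hn⟩ := Fin_pd hpd
  exact Fin_list hI (U6B_main r S I hI n hn h hb)

/-- every Noetherian local ring containing a field. -/
theorem Fin_field {S : Type u} [CommRing S] [IsNoetherianRing S] [IsLocalRing S]
    (hS : ∃ (k : Type u) (_ : Field k), Nonempty (k →+* S)) (I : Ideal S) (hI : I ≠ ⊤)
    (hpd : ∃ n : ℕ, HasProjectiveDimensionLT (ModuleCat.of S I) n)
    (hN : Module.Free (S ⧸ I) (I.Cotangent →ₗ[S ⧸ I] (S ⧸ I)) ∨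
      ((∀ rs : List (S ⧸ I), RingTheory.Sequence.IsRegular (S ⧸ I) rs → rs.length ≤ 2) ∧
      ∃ n : ℕ, HasProjectiveDimensionLT
        (ModuleCat.of (S ⧸ I) (I.Cotangent →ₗ[S ⧸ I] (S ⧸ I))) n)) :
    ∃ rs : List S, Ideal.span {s : S | s ∈ rs} = I ∧ RingTheory.Sequence.IsRegular S rs := by
  obtain ⟨k, _, ⟨φ⟩⟩ := hS
  obtain ⟨p, hpk⟩ := CharP.exists k
  have hSp : CharP S p := charP_of_injective_ringHom φ.injective p
  rcases CharP.char_is_prime_or_zero k p with h0 | h0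
  · have : Fact p.Prime := ⟨h0⟩
    exact Pool.Agent.Lib.H44V.Fin_charP p I hI hpd hN
  · subst h0
    have : CharZero k := CharP.charP_to_charZero k
    let _ : Algebra ℚ S := (φ.comp (algebraMap ℚ k)).toAlgebra
    exact Fin_rat I hI hpd hN

end Pool.Agent.Lib.H78D
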