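import Pool.Agent.Lib.H78D.Defs
import Pool.Agent.Lib.H78C.A1
import Pool.Agent.Lib.H78C.A2

/-!
# G1 (S/M): flat base change of projective dimension

PROOF.  Induction on `n` (two-step), for all `M`.  `n = 0`: `M` subsingleton, so is `S ⊗ M`.  `n = 1`: base change
of a projective module is projective (instance).  `n + 2`: `F = M →₀ L` (or any free module) onto `M`, kernel
`K`, PD K (n + 1) (A1_shift); `S ⊗ K → S ⊗ F → S ⊗ M` is exact with `S ⊗ K → S ⊗ F` injective (flat), so
`S ⊗ K ≃ ker (S ⊗ F → S ⊗ M)`; A1_equiv, A1_shift.  Compare H78C/P1 (the converse) and H78C/P3.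
-/

set_option autoImplicit false
open CategoryTheory IsLocalRing TensorProduct
open Pool.Agent.Lib.Helper92 Pool.Agent.Lib.H44V Pool.Agent.Lib.H78C Pool.Agent.Lib.H61E

namespace Pool.Agent.Lib.H78D
universe u

theorem G1_up {L S : Type u} [CommRing L] [CommRing S] [Algebra L S] [Module.Flat L S]
    (n : ℕ) : ∀ (M : Type u) [AddCommGroup M] [Module L M], PD L M n → PD S (S ⊗[L] M) n := by
  induction n with
  | zero =>
    intro M _ _ h
    rw [A1_zero] at h ⊢
    refine ⟨fun a b => ?_⟩
    have hz : ∀ t : S ⊗[L] M, t = 0 := by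
      intro t
      induction t using TensorProduct.induction_on with
      | zero => rfl
      | tmul a m => rw [Subsingleton.elim m 0, TensorProduct.tmul_zero]
      | add u v hu hv => rw [hu, hv, add_zero]
    rw [hz a, hz b]
  | succ n ih =>
    intro M _ _ h
    cases n with
    | zero =>
      change PD L M 1 at h
      change PD S (S ⊗[L] M) 1
      rw [A1_one] at h ⊢
      infer_instance
    | succ n =>
      change PD L M (n + 2) at h
      change PD S (S ⊗[L] M) (n + 2)
      obtain ⟨f, hf⟩ : ∃ f : (M →₀ L) →ₗ[L] M, Function.Surjective f :=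
        ⟨Finsupp.linearCombination L id, Finsupp.linearCombination_surjective L Function.surjective_id⟩
      have h1 := ih (LinearMap.ker f) ((A1_shift f hf n).1 h)
      have hsurj : Function.Surjective (f.baseChange S) := LinearMap.lTensor_surjective _ hf
      rw [A1_shift (f.baseChange S) hsurj n]
      exact A1_equiv (LinearMap.tensorKerEquiv S S f) (n + 1) h1

theorem G1_quot {L S : Type u} [CommRing L] [CommRing S] [Algebra L S] [Module.Flat L S]
    (I : Ideal L) (n : ℕ) (h : PD L (L ⧸ I) n) : PD S (S ⧸ I.map (algebraMap L S)) n :=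
  (A2_pd I n).1 (G1_up n _ h)

end Pool.Agent.Lib.H78D
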