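import Pool.Agent.Lib.H78D.Defs
import Pool.Agent.Lib.H78C.FB

/-!
# G2 (M): flat base change of a basis of the normal module

PROOF.  `FB_baseChange (S := S) I`: `β : N(I) → N(IS)` is a base change and has the formula for values;
`h' i = β (h i)`.  `span`: `IsBaseChange` implies that the image of `β` spans over `S`, and `h` spans `N(I)` over
`A` (compare H78C/N1, N2 which use FB in the other direction).  `indep`: `∑ s_i • h' i = 0`.  Let
`Θ : (Fin r → A) → N(I)`, `a ↦ ∑ a_i • h i`, with kernel `I^r` (`hb.indep`; and `x • h i = 0` for `x ∈ I`).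
By flatness `S ⊗ Θ` has kernel `S ⊗ I^r`, i.e. `s_i ∈ IS`.  Alternatively: `N(I) ≃ (A ⧸ I)^r` (NBasis gives an
`A`-linear equivalence), so `S ⊗ N(I) ≃ (S ⧸ IS)^r` (A2_quot), compatible with the basis; `hβ.equiv`.
-/

set_option autoImplicit false
open CategoryTheory IsLocalRing TensorProduct
open Pool.Agent.Lib.Helper92 Pool.Agent.Lib.H44V Pool.Agent.Lib.H78C Pool.Agent.Lib.H61E

namespace Pool.Agent.Lib.H78D
universe u

/-- the coordinates of a functional. -/
theorem G2_coord {A S : Type u} [CommRing A] [CommRing S] [Algebra A S]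
    (I : Ideal A) {r : ℕ} (h : Fin r → (I →ₗ[A] (A ⧸ I))) (hb : NBasis I h) (i : Fin r) :
    ∃ c : (I →ₗ[A] (A ⧸ I)) →ₗ[A] (S ⧸ I.map (algebraMap A S)),
      ∀ j, c (h j) = if j = i then Submodule.Quotient.mk 1 else 0 := by
  classical
  choose co hco using hb.span
  have l1 : ∀ (x y : A) (φ : I →ₗ[A] (A ⧸ I)), (x - y) • φ = x • φ - y • φ :=
    fun x y φ => LinearMap.ext fun z => sub_smul x y (φ z)
  have l2 : ∀ (x y : A) (φ : I →ₗ[A] (A ⧸ I)), (x + y) • φ = x • φ + y • φ :=
    fun x y φ => LinearMap.ext fun z => add_smul x y (φ z)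
  have l3 : ∀ (x y : A) (φ : I →ₗ[A] (A ⧸ I)), (x * y) • φ = x • (y • φ) :=
    fun x y φ => LinearMap.ext fun z => mul_smul x y (φ z)
  have l4 : ∀ (φ : I →ₗ[A] (A ⧸ I)), (1 : A) • φ = φ :=
    fun φ => LinearMap.ext fun z => one_smul A (φ z)
  have l5 : ∀ (φ : I →ₗ[A] (A ⧸ I)), (0 : A) • φ = 0 :=
    fun φ => LinearMap.ext fun z => zero_smul A (φ z)
  have huniq : ∀ (g : I →ₗ[A] (A ⧸ I)) (a : Fin r → A), g = ∑ j, a j • h j →
      (Submodule.Quotient.mk (algebraMap A S (co g i)) : S ⧸ I.map (algebraMap A S)) =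
        Submodule.Quotient.mk (algebraMap A S (a i)) := by
    intro g a ha
    rw [Submodule.Quotient.eq, ← map_sub]
    refine Ideal.mem_map_of_mem _ (hb.indep (fun j => co g j - a j) ?_ i)
    show ∑ j, (co g j - a j) • h j = 0
    simp only [l1]
    rw [Finset.sum_sub_distrib, ← hco g, ← ha, sub_self]
  refine ⟨{ toFun := fun g => Submodule.Quotient.mk (algebraMap A S (co g i))
            map_add' := ?_, map_smul' := ?_ }, ?_⟩
  · intro g g'
    rw [← Submodule.Quotient.mk_add, ← map_add]
    refine huniq (g + g') (fun j => co g j + co g' j) ?_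
    simp only [l2]
    rw [Finset.sum_add_distrib, ← hco g, ← hco g']
  · intro a g
    have h1 := huniq (a • g) (fun j => a * co g j) (by
      simp only [l3]
      rw [← Finset.smul_sum, ← hco g])
    rw [h1, map_mul, RingHom.id_apply]
    exact (algebraMap_smul S a (Submodule.Quotient.mk (algebraMap A S (co g i)) :
      S ⧸ I.map (algebraMap A S)))
  · intro j
    have h1 := huniq (h j) (fun l => if l = j then 1 else 0) (by
      simp only [ite_smul, l4, l5]
      rw [Finset.sum_ite_eq' Finset.univ j]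
      simp)
    change (Submodule.Quotient.mk (algebraMap A S (co (h j) i)) : S ⧸ I.map (algebraMap A S)) = _
    rw [h1]
    by_cases hij : i = j
    · rw [if_pos hij, if_pos hij.symm, map_one]
    · rw [if_neg hij, if_neg (fun h2 => hij h2.symm), map_zero, Submodule.Quotient.mk_zero]

theorem G2_up {A S : Type u} [CommRing A] [CommRing S] [Algebra A S] [IsNoetherianRing A]
    [Module.Flat A S] (I : Ideal A) {r : ℕ} (h : Fin r → (I →ₗ[A] (A ⧸ I))) (hb : NBasis I h) :
    ∃ h' : Fin r → (I.map (algebraMap A S) →ₗ[S] (S ⧸ I.map (algebraMap A S))),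
      NBasis (I.map (algebraMap A S)) h' ∧
      ∀ (i : Fin r) (y : I) (a : A), h i y = Submodule.Quotient.mk a →
        h' i ⟨algebraMap A S y, Ideal.mem_map_of_mem _ y.2⟩ =
          Submodule.Quotient.mk (algebraMap A S a) := by
  classical
  obtain ⟨β, hβ, hv⟩ := FB_baseChange (S := S) I
  refine ⟨fun i => β (h i), ⟨?_, ?_⟩, fun i y a hy => hv (h i) y a hy⟩
  · intro a ha i
    obtain ⟨c, hc⟩ := G2_coord (S := S) I h hb i
    have h1 := congrArg (hβ.lift c) ha
    rw [map_sum, map_zero] at h1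
    simp only [map_smul, hβ.lift_eq, hc, smul_ite, smul_zero] at h1
    rw [Finset.sum_ite_eq' Finset.univ i, if_pos (Finset.mem_univ i), ← Submodule.Quotient.mk_smul,
      smul_eq_mul, mul_one, Submodule.Quotient.mk_eq_zero] at h1
    exact h1
  · intro g
    obtain ⟨t, rfl⟩ := hβ.equiv.surjective g
    induction t using TensorProduct.induction_on with
    | zero => exact ⟨fun _ => 0, by simp⟩
    | tmul s n =>
      obtain ⟨a, ha⟩ := hb.span n
      refine ⟨fun i => s * algebraMap A S (a i), ?_⟩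
      rw [hβ.equiv_tmul, ha, map_sum, Finset.smul_sum]
      refine Finset.sum_congr rfl fun i _ => ?_
      rw [map_smul, mul_smul, algebraMap_smul]
    | add x y hx hy =>
      obtain ⟨a, ha⟩ := hx
      obtain ⟨b, hb'⟩ := hy
      refine ⟨fun i => a i + b i, ?_⟩
      rw [map_add, ha, hb', ← Finset.sum_add_distrib]
      refine Finset.sum_congr rfl fun i _ => ?_
      rw [add_smul]

end Pool.Agent.Lib.H78D
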