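import Pool.Agent.Lib.H78D.C0
import Pool.Agent.Lib.H78D.FL
import Pool.Agent.Lib.H78C.N1
import Pool.Agent.Lib.H78C.P1
import Pool.Agent.Lib.H78C.A2
import Pool.Agent.Lib.H78C.CF

/-!
# K0 (M): the theorem for quotients of faithfully flat extensions of rings of finite type

PROOF.  `J = span (range j)` in `B`, `L = B ⧸ J`: local (quotient of a local ring; `J ≠ ⊤` because `J P = ker f ≠ ⊤`
as `S` is nontrivial; `IsLocalRing.of_surjective'`), Noetherian (`Algebra.EssFiniteType.isNoetherianRing k B`),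
`EssFiniteType k L` (quotient: `Algebra.EssFiniteType.comp` with the finite type `B`-algebra `B ⧸ J`, or
`Algebra.EssFiniteType.of_surjective`..).  FL_main: `S` is a faithfully flat `L`-algebra.  `I_L = span (mk (g k))`,
`I_L.map (algebraMap L S) = I` (Ideal.map_span).  PD: `A2_pd` (PD S (S ⊗ L/I_L) from PD S (S/I)) and
`P1_descent`.  NF: `N1_descent`.  `I_L ≠ ⊤`.  `C0_main`: `CI I_L r`; `CF_flat`: `CI I r`.
-/

set_option autoImplicit false
open CategoryTheory IsLocalRing TensorProduct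
open Pool.Agent.Lib.Helper92 Pool.Agent.Lib.H44V Pool.Agent.Lib.H78C Pool.Agent.Lib.H61E

namespace Pool.Agent.Lib.H78D
universe u

theorem K0_ci {k B P : Type u} [Field k] [CharZero k] [CommRing B] [IsLocalRing B] [Algebra k B]
    [Algebra.EssFiniteType k B] [CommRing P] [Algebra B P] [Module.FaithfullyFlat B P] {a b : ℕ}
    (j : Fin a → B) (g : Fin b → B) {S : Type u} [CommRing S] [IsLocalRing S] (f : P →+* S)
    (hf : Function.Surjective f)
    (hj : RingHom.ker f = Ideal.span (Set.range fun i => algebraMap B P (j i))) (I : Ideal S)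
    (hI : Ideal.span (Set.range fun i => f (algebraMap B P (g i))) = I) (hI' : I ≠ ⊤) (n : ℕ)
    (hpd : PD S (S ⧸ I) n) (r : ℕ) (h : NF I r) : CI I r := by
  obtain ⟨J, hJdef⟩ : ∃ J : Ideal B, J = Ideal.span (Set.range j) := ⟨_, rfl⟩
  have hker : RingHom.ker f = J.map (algebraMap B P) := by
    rw [hj, hJdef, Ideal.map_span, ← Set.range_comp]
    rfl
  have hJ : J ≠ ⊤ := by
    intro h1
    apply RingHom.ker_ne_top f
    rw [hker, h1, Ideal.map_top]
  have hnt : Nontrivial (B ⧸ J) := Ideal.Quotient.nontrivial_iff.2 hJ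
  have hloc : IsLocalRing (B ⧸ J) :=
    IsLocalRing.of_surjective' (Ideal.Quotient.mk J) Ideal.Quotient.mk_surjective
  have hess : Algebra.EssFiniteType k (B ⧸ J) := Algebra.EssFiniteType.comp k B (B ⧸ J)
  have hnoeth : IsNoetherianRing (B ⧸ J) := Algebra.EssFiniteType.isNoetherianRing k (B ⧸ J)
  obtain ⟨alg, hff, hmap⟩ := FL_main J f hf hker
  obtain ⟨IL, hILdef⟩ : ∃ IL : Ideal (B ⧸ J),
      IL = Ideal.span (Set.range fun i => Ideal.Quotient.mk J (g i)) := ⟨_, rfl⟩
  have hIL : IL.map (algebraMap (B ⧸ J) S) = I := by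
    rw [hILdef, Ideal.map_span, ← Set.range_comp, ← hI]
    congr 2
    funext i
    exact hmap (g i)
  obtain rfl : I = IL.map (algebraMap (B ⧸ J) S) := hIL.symm
  have hne : IL ≠ ⊤ := by
    intro h1
    apply hI'
    rw [h1, Ideal.map_top]
  have hpdL : PD (B ⧸ J) ((B ⧸ J) ⧸ IL) n :=
    P1_descent n ((B ⧸ J) ⧸ IL) ((A2_pd IL n).2 hpd)
  have hNF : NF IL r := N1_descent IL hI' r h
  exact CF_flat IL r (C0_main (k := k) IL hne n hpdL r hNF)

end Pool.Agent.Lib.H78D
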