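import Pool.Agent.Lib.H78D.SR

/-!
# SD (S/M): the data `Dat` are stable under approximation

PROOF.  `e1`: SR_spot with `G`, `D = α`, `E = row1 γ` (`(row1 γ).map y = row1 (y ∘ γ)`, rfl / Matrix.ext).
`e2`: SR_res.  `e3`: SR_spot with `Fin.append G γ` (`y ∘ Fin.append G γ = Fin.append (y ∘ G) (y ∘ γ)`:
`Fin.append` and functions, ext by `Fin.addCases`; search `Fin.append_comp` or similar), `D = fun _ k =>
k.elim0`, `E = η`.  `e4`: `D = η`, `E = α.transpose` (`α.transpose.map y = (α.map y).transpose`, rfl).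
ST2_and three times and ST2_imp.
-/

set_option autoImplicit false
open CategoryTheory IsLocalRing TensorProduct
open Pool.Agent.Lib.Helper92 Pool.Agent.Lib.H44V Pool.Agent.Lib.H78C Pool.Agent.Lib.H61E

namespace Pool.Agent.Lib.H78D
universe u

theorem SD_dat {P : Type u} [CommRing P] [IsNoetherianRing P] [IsLocalRing P] {ι : Type}
    [Finite ι] (y : ι → P) (n : ℕ) {a b c r : ℕ} (G : Fin a → ι) (γ : Fin b → ι)
    (α : Matrix (Fin b) (Fin c) ι) (η : Matrix (Fin b) (Fin r) ι)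
    (h : Dat n (y ∘ G) (y ∘ γ) (α.map y) (η.map y)) :
    Stb (fun y' : ι → P => Dat n (y' ∘ G) (y' ∘ γ) (α.map y') (η.map y')) y := by
  have happ : ∀ z : ι → P, z ∘ Fin.append G γ = Fin.append (z ∘ G) (z ∘ γ) := by
    intro z
    funext i
    refine Fin.addCases (fun i => ?_) (fun i => ?_) i
    · simp
    · simp
  have hrow : ∀ z : ι → P, (row1 γ).map z = row1 (z ∘ γ) := fun z => rfl
  have htr : ∀ z : ι → P, α.transpose.map z = (α.map z).transpose := fun z => rfl
  obtain ⟨Z, hZd⟩ : ∃ Z : Matrix (Fin r) (Fin 0) ι, Z = fun _ k => k.elim0 := ⟨_, rfl⟩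
  have hZ : ∀ z : ι → P, Z.map z = 0 := fun z => by
    ext i k
    exact k.elim0
  have s1 := SR_spot y G α (row1 γ) (by
    rw [hrow]
    exact h.e1)
  have s2 := SR_res n y G α h.e2
  have s3 := SR_spot y (Fin.append G γ) Z η (by
    rw [happ, hZ]
    exact h.e3)
  have s4 := SR_spot y (Fin.append G γ) η α.transpose (by
    rw [happ, htr]
    exact h.e4)
  refine ST2_imp (ST2_and s1 (ST2_and s2 (ST2_and s3 s4))) fun y' hh => ?_
  obtain ⟨h1, h2, h3, h4⟩ := hh
  rw [hrow] at h1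
  rw [happ, hZ] at h3
  rw [happ, htr] at h4
  exact ⟨h1, h2, h3, h4⟩

end Pool.Agent.Lib.H78D
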