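import Pool.Agent.Lib.H78D.Defs
import Pool.Agent.Lib.H61E.ST1
import Pool.Agent.Lib.H61E.ST2

/-!
# SR (M): the matrix resolution is stable under approximation

PROOF.  Induction on `n`, for all `ι`, `y`, `M`.
`n = 0`: `Ex (sp (y ∘ G)) 0 (M.map y)`.  Take the index matrix `Z : Matrix (Fin b) (Fin 0) ι := fun _ k =>
k.elim0`; `Z.map y = 0` for every `y` (Matrix.ext, `Fin.elim0`).  `ST1_spot G Z M y` gives the stability
of the pair of statements which is `Ex` by definition (use ST2_imp; `Ex` unfolds to exactly the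
conjunction in ST1_spot, with `c := Fin c` etc.).
`n + 1`: let `D` be the next matrix.  Auxiliary elements `x : Fin b × Fin a' → P`, `x (i, k) = D i k`.  By
`ST2_aux x` it suffices to show `Stb (fun yx => Res (sp ((fun i => yx (Sum.inl i)) ∘ G)) (n + 1) c b
(M.map (fun i => yx (Sum.inl i)))) (Sum.elim y x)`.  Put `G' = Sum.inl ∘ G`, `M' = M.map Sum.inl`,
`D' = fun i k => Sum.inr (i, k)` (index matrices with values in `ι ⊕ (Fin b × Fin a')`).  By ST1_spot and
the induction hypothesis (for `D'`) and ST2_and the statement `Ex (sp (yx ∘ G')) (D'.map yx) (M'.map yx) ∧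
Res (sp (yx ∘ G')) n b a' (D'.map yx)` is stable at `Sum.elim y x`; ST2_imp.
(`(M.map Sum.inl).map (Sum.elim y x) = M.map y`: `Matrix.ext`, `rfl`.)
-/

set_option autoImplicit false
open CategoryTheory IsLocalRing TensorProduct
open Pool.Agent.Lib.Helper92 Pool.Agent.Lib.H44V Pool.Agent.Lib.H78C Pool.Agent.Lib.H61E

namespace Pool.Agent.Lib.H78D
universe u

theorem SR_spot {P : Type u} [CommRing P] [IsNoetherianRing P] [IsLocalRing P] {ι : Type}
    [Finite ι] (y : ι → P) {d a b c : ℕ} (G : Fin d → ι) (D : Matrix (Fin b) (Fin a) ι)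
    (E : Matrix (Fin c) (Fin b) ι) (h : Ex (sp (y ∘ G)) (D.map y) (E.map y)) :
    Stb (fun y' : ι → P => Ex (sp (y' ∘ G)) (D.map y') (E.map y')) y :=
  ST1_spot G D E y h.1 h.2

theorem SR_res {P : Type u} [CommRing P] [IsNoetherianRing P] [IsLocalRing P] (n : ℕ) :
    ∀ {ι : Type} [Finite ι] (y : ι → P) {d b c : ℕ} (G : Fin d → ι)
      (M : Matrix (Fin c) (Fin b) ι), Res (sp (y ∘ G)) n c b (M.map y) →
      Stb (fun y' : ι → P => Res (sp (y' ∘ G)) n c b (M.map y')) y := by
  induction n with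
  | zero =>
    intro ι _ y d b c G M h
    obtain ⟨Z, hZd⟩ : ∃ Z : Matrix (Fin b) (Fin 0) ι, Z = fun _ k => k.elim0 := ⟨_, rfl⟩
    have hZ : ∀ y' : ι → P, Z.map y' = 0 := fun y' => by
      ext i k
      exact k.elim0
    have h' : Ex (sp (y ∘ G)) (Z.map y) (M.map y) := by
      rw [hZ]
      exact h
    refine ST2_imp (SR_spot y G Z M h') fun y' hy' => ?_
    rw [hZ] at hy'
    exact hy'
  | succ n ih =>
    intro ι _ y d b c G M h
    obtain ⟨a', D, hD, hR⟩ := h
    refine ST2_aux (fun p : Fin b × Fin a' => D p.1 p.2) ?_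
    have e2 : (M.map (Sum.inl : ι → ι ⊕ (Fin b × Fin a'))).map
        (Sum.elim y (fun p : Fin b × Fin a' => D p.1 p.2)) = M.map y := by
      ext i k
      rfl
    have e3 : (Matrix.map (fun (i : Fin b) (k : Fin a') =>
        (Sum.inr (i, k) : ι ⊕ (Fin b × Fin a')))
        (Sum.elim y (fun p : Fin b × Fin a' => D p.1 p.2))) = D := by
      ext i k
      rfl
    have s1 := SR_spot (Sum.elim y (fun p : Fin b × Fin a' => D p.1 p.2)) (Sum.inl ∘ G)
      (fun (i : Fin b) (k : Fin a') => (Sum.inr (i, k) : ι ⊕ (Fin b × Fin a')))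
      (M.map (Sum.inl : ι → ι ⊕ (Fin b × Fin a'))) (by
        rw [e2, e3]
        exact hD)
    have s2 := ih (Sum.elim y (fun p : Fin b × Fin a' => D p.1 p.2)) (Sum.inl ∘ G)
      (fun (i : Fin b) (k : Fin a') => (Sum.inr (i, k) : ι ⊕ (Fin b × Fin a'))) (by
        rw [e3]
        exact hR)
    refine ST2_imp (ST2_and s1 s2) fun yx hh => ?_
    exact ⟨a', _, hh.1, hh.2⟩

end Pool.Agent.Lib.H78D
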