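import Pool.Agent.Lib.H78D.Defs

/-!
# U5 (M): a complete intersection has a functional with the value 1

PROOF.  `CI I (r + 1)`: `x`, `I = Jx x (r + 1) = Jx x r ⊔ span {x r}`, `x r` regular on `S/Jx x r`.  Every
`y ∈ I` is `z + s x_r` with `z ∈ Jx x r` (`Ideal.mem_sup`, `Ideal.mem_span_singleton'`), and
`φ (y) = mk s ∈ S/I` is well defined: `s x_r ∈ Jx x r` implies `s ∈ Jx x r ≤ I` (`A10_reg`).  So `φ : I →ₗ S/I`
with `φ (x_r) = mk 1` (define it by choice and check additivity with the well-definedness).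
`hb.span`: `φ = ∑ a_i • h i`.  `x_r ∈ I = span (g)`: `x_r = ∑ s_k g_k`, so `mk 1 = ∑_i ∑_k a_i s_k • h i (g k)`.
If all `h i (g k) = mk c` with `c` not a unit, i.e. `c ∈ m` (every representative), the right side is `mk` of
an element of `m`, so `1 ∈ m + I ≤ m`, a contradiction.
-/

set_option autoImplicit false
open CategoryTheory IsLocalRing TensorProduct
open Pool.Agent.Lib.Helper92 Pool.Agent.Lib.H44V Pool.Agent.Lib.H78C Pool.Agent.Lib.H61E

namespace Pool.Agent.Lib.H78D
universe u

theorem U5_unit {S : Type u} [CommRing S] [IsLocalRing S] (I : Ideal S) (hI : I ≠ ⊤) (r : ℕ)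
    (hc : CI I (r + 1)) (h : Fin (r + 1) → (I →ₗ[S] (S ⧸ I))) (hb : NBasis I h) {b : ℕ}
    (g : Fin b → S) (hg : Ideal.span (Set.range g) = I) :
    ∃ (i : Fin (r + 1)) (k : Fin b) (hk : g k ∈ I) (c : S),
      IsUnit c ∧ h i ⟨g k, hk⟩ = Submodule.Quotient.mk c := by
  classical
  obtain ⟨x, hreg, hx⟩ := hc
  have hIx : Jx x r ⊔ Ideal.span {x r} = I := hx
  have hK : Jx x r ≤ I := hIx ▸ le_sup_left
  have hxr : x r ∈ I := by
    rw [← hIx]
    exact Ideal.mem_sup_right (Ideal.mem_span_singleton_self _)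
  have hdec : ∀ y : I, ∃ s : S, (y : S) - s * x r ∈ Jx x r := by
    intro y
    have hy : (y : S) ∈ Jx x r ⊔ Ideal.span {x r} := by
      rw [hIx]
      exact y.2
    exact mem_sup_span hy
  choose s hs using hdec
  have hwd : ∀ (y : I) (t : S), (y : S) - t * x r ∈ Jx x r → s y - t ∈ I := by
    intro y t ht
    apply hK
    refine (A10_reg (Jx x r) (x r)).mp (hreg r (by omega)) _ ?_
    have h1 := (Jx x r).sub_mem ht (hs y)
    have h2 : x r * (s y - t) = (y : S) - t * x r - ((y : S) - s y * x r) := by ring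
    rw [h2]
    exact h1
  let φ : I →ₗ[S] (S ⧸ I) :=
    { toFun := fun y => Submodule.Quotient.mk (s y)
      map_add' := by
        intro y z
        rw [← Submodule.Quotient.mk_add, Submodule.Quotient.eq]
        apply hwd
        have h1 := (Jx x r).add_mem (hs y) (hs z)
        have h2 : ((y + z : I) : S) - (s y + s z) * x r =
            (y : S) - s y * x r + ((z : S) - s z * x r) := by
          rw [Submodule.coe_add]
          ring
        rw [h2]
        exact h1
      map_smul' := by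
        intro c y
        rw [RingHom.id_apply, ← Submodule.Quotient.mk_smul, Submodule.Quotient.eq]
        apply hwd
        have h1 := (Jx x r).mul_mem_left c (hs y)
        have h2 : ((c • y : I) : S) - (c • s y) * x r = c * ((y : S) - s y * x r) := by
          rw [Submodule.coe_smul, smul_eq_mul, smul_eq_mul]
          ring
        rw [h2]
        exact h1 }
  have hφ : φ ⟨x r, hxr⟩ = Submodule.Quotient.mk 1 := by
    change (Submodule.Quotient.mk (s ⟨x r, hxr⟩) : S ⧸ I) = _
    rw [Submodule.Quotient.eq]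
    apply hwd
    have h2 : ((⟨x r, hxr⟩ : I) : S) - 1 * x r = 0 := by
      rw [one_mul, sub_self]
    rw [h2]
    exact (Jx x r).zero_mem
  obtain ⟨a, ha⟩ := hb.span φ
  have hgI : ∀ k, g k ∈ I := fun k => hg ▸ Ideal.subset_span ⟨k, rfl⟩
  obtain ⟨c, hc'⟩ : ∃ c : Fin b → S, ∑ k, c k * g k = x r := by
    apply Ideal.mem_span_range_iff_exists_fun.mp
    rw [hg]
    exact hxr
  by_contra hcon
  push Not at hcon
  have hrep : ∀ (i : Fin (r + 1)) (k : Fin b), ∃ v : S,
      h i ⟨g k, hgI k⟩ = Submodule.Quotient.mk v := by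
    intro i k
    obtain ⟨v, hv⟩ := Submodule.Quotient.mk_surjective _ (h i ⟨g k, hgI k⟩)
    exact ⟨v, hv.symm⟩
  choose v hv using hrep
  have hvm : ∀ i k, v i k ∈ maximalIdeal S := by
    intro i k
    rw [mem_maximalIdeal, mem_nonunits_iff]
    intro hu
    exact hcon i k (hgI k) (v i k) hu (hv i k)
  have hxs : (⟨x r, hxr⟩ : I) = ∑ k, c k • (⟨g k, hgI k⟩ : I) := by
    apply Subtype.ext
    rw [Submodule.coe_sum]
    simp only [Submodule.coe_smul, smul_eq_mul]
    exact hc'.symm
  have hval : φ ⟨x r, hxr⟩ = Submodule.Quotient.mk (∑ i, a i * ∑ k, c k * v i k) := by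
    rw [ha, LinearMap.sum_apply, qmk_sum]
    refine Finset.sum_congr rfl fun i _ => ?_
    rw [LinearMap.smul_apply, hxs, map_sum, ← smul_eq_mul, Submodule.Quotient.mk_smul, qmk_sum]
    congr 1
    refine Finset.sum_congr rfl fun k _ => ?_
    rw [map_smul, hv, ← Submodule.Quotient.mk_smul, smul_eq_mul]
  rw [hφ, Submodule.Quotient.eq] at hval
  have hsum : ∑ i, a i * ∑ k, c k * v i k ∈ maximalIdeal S :=
    Ideal.sum_mem _ fun i _ => Ideal.mul_mem_left _ _
      (Ideal.sum_mem _ fun k _ => Ideal.mul_mem_left _ _ (hvm i k))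
  have h1 : (1 : S) ∈ maximalIdeal S := by
    have h2 := (maximalIdeal S).add_mem (le_maximalIdeal hI hval) hsum
    rwa [sub_add_cancel] at h2
  exact (Ideal.ne_top_iff_one _).mp (maximalIdeal.isMaximal S).ne_top h1

end Pool.Agent.Lib.H78D
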