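import Pool.Agent.Lib.H78D.VX
import Pool.Agent.Lib.H78C.A1

/-!
# V1 (M/L): from finite projective dimension to a matrix resolution

`V1_ker`: PROOF by induction on `n` (two-step: n = 0, n = 1, n + 2), for all `b`, `c`, `E`.  Write
`K = ker (mulVecLin (E.map f))`, a finitely generated submodule of `Fin b → S` (Noetherian).
`n = 0`: `K` is a subsingleton (A1_zero): take `a = 0`, `D = 0`: range of `mulVecLin (0.map f)` is `⊥ = K`
(VX_iff), and `Res (sp j) 0 b 0 D`, i.e. `Ex (sp j) (0 : Matrix (Fin 0) (Fin 0)) D`: over `S` both sides are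
submodules of `Fin 0 → S`, so equal (Subsingleton); `n' = 0`.
`n = 1`: `K` is projective (A1_one), finite, `S` local: free (`Module.free_of_flat_of_isLocalRing` or
`Module.Free` of projective over a local ring), with a basis indexed by `Fin a`
(`Module.finBasis` or choose): the columns of `D` are lifts to `P` of the basis vectors; range = K; and
`mulVecLin (D.map f)` is injective, so `Res (sp j) 0 b a D` by VX_iff.
`n + 2`: choose generators `Fin a` of `K`, `D` = lifts of the generators, range (D.map f) = K; the map
`(Fin a → S) → K` is surjective with kernel `ker (mulVecLin (D.map f))` and `Fin a → S` is free, so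
A1_shift gives PD of `ker (mulVecLin (D.map f))` (n + 1); (the kernel of the corestricted map is equal to
the kernel: `LinearMap.ker_codRestrict` or `ker_rangeRestrict`).  Induction hypothesis for `D` (with
`n + 1`): `a'`, `D'`, `n'` with Ex D' D and Res n' D', so `Res (n' + 1) D`.
`V1_res`: `S/I` with `I = span (f ∘ g)`.  PD S (S/I) n; enlarge `n` to `n + 3`
(hasProjectiveDimensionLT_of_ge).  `S → S/I` surjective with kernel `I` (A1_shift: PD I (n + 2)),
`(Fin b → S) → I`, `v ↦ ∑ v_k f (g k)` surjective with kernel `ker (mulVecLin ((row1 g).map f))` up to the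
identification `(Fin 1 → S) = S`: PD of that kernel is (n + 1).  `V1_ker` for `E = row1 g`.
-/

set_option autoImplicit false
open CategoryTheory IsLocalRing TensorProduct
open Pool.Agent.Lib.Helper92 Pool.Agent.Lib.H44V Pool.Agent.Lib.H78C Pool.Agent.Lib.H61E

namespace Pool.Agent.Lib.H78D
universe u

/-- lifting of families of vectors to matrices. -/
theorem V1_lift {P S : Type u} [CommRing P] [CommRing S] (f : P →+* S)
    (hf : Function.Surjective f) {b a : ℕ} (v : Fin a → (Fin b → S)) :
    ∃ D : Matrix (Fin b) (Fin a) P, (D.map f).col = v := by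
  choose D hD using fun (i : Fin b) (k : Fin a) => hf (v k i)
  exact ⟨D, by funext k i; exact hD i k⟩

theorem V1_sub0 {S : Type u} [CommRing S] (X Y : Submodule S (Fin 0 → S)) : X = Y := by
  ext x
  have : x = 0 := Subsingleton.elim _ _
  subst this
  exact ⟨fun _ => Y.zero_mem, fun _ => X.zero_mem⟩

theorem V1_range0 {S : Type u} [CommRing S] {b : ℕ} (M : Matrix (Fin b) (Fin 0) S) :
    LinearMap.range (Matrix.mulVecLin M) = ⊥ := by
  rw [LinearMap.range_eq_bot]
  ext x
  exact x.elim0

theorem V1_ker {P S : Type u} [CommRing P] [CommRing S] [IsNoetherianRing S] [IsLocalRing S]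
    (f : P →+* S) (hf : Function.Surjective f) {d : ℕ} (j : Fin d → P)
    (hj : RingHom.ker f = sp j) (n : ℕ) :
    ∀ {b c : ℕ} (E : Matrix (Fin c) (Fin b) P),
      PD S (LinearMap.ker (Matrix.mulVecLin (E.map f))) n →
      ∃ (a : ℕ) (D : Matrix (Fin b) (Fin a) P) (n' : ℕ), Ex (sp j) D E ∧ Res (sp j) n' b a D := by
  induction n with
  | zero =>
    intro b c E h
    have hs : Subsingleton (LinearMap.ker (Matrix.mulVecLin (E.map f))) := A1_zero.1 h
    refine ⟨0, 0, 0, ?_, ?_⟩
    · rw [VX_iff f hf j hj, V1_range0]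
      exact ((Submodule.subsingleton_iff_eq_bot).1 hs).symm
    · show Ex (sp j) _ _
      rw [VX_iff f hf j hj]
      exact V1_sub0 _ _
  | succ n ih =>
    intro b c E h
    cases n with
    | zero =>
      have hp : Module.Projective S (LinearMap.ker (Matrix.mulVecLin (E.map f))) := A1_one.1 h
      have hfp : Module.FinitePresentation S (LinearMap.ker (Matrix.mulVecLin (E.map f))) :=
        Module.finitePresentation_of_finite S _
      have hfree : Module.Free S (LinearMap.ker (Matrix.mulVecLin (E.map f))) :=
        Module.free_of_flat_of_isLocalRing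
      let B := Module.finBasis S (LinearMap.ker (Matrix.mulVecLin (E.map f)))
      obtain ⟨D, hD⟩ := V1_lift f hf (fun k => ((B k : LinearMap.ker (Matrix.mulVecLin (E.map f))) :
        Fin b → S))
      refine ⟨_, D, 0, ?_, ?_⟩
      · rw [VX_iff f hf j hj, Matrix.range_mulVecLin, hD]
        have h1 : Submodule.map (LinearMap.ker (Matrix.mulVecLin (E.map f))).subtype
            (Submodule.span S (Set.range B)) = LinearMap.ker (Matrix.mulVecLin (E.map f)) := by
          rw [B.span_eq, Submodule.map_top, Submodule.range_subtype]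
        rw [Submodule.map_span, ← Set.range_comp] at h1
        exact h1
      · show Ex (sp j) _ _
        rw [VX_iff f hf j hj, V1_range0]
        symm
        rw [LinearMap.ker_eq_bot]
        show Function.Injective (Matrix.mulVec (D.map f))
        rw [Matrix.mulVec_injective_iff, hD]
        exact B.linearIndependent.map' _ (Submodule.ker_subtype _)
    | succ m =>
      obtain ⟨a, v, hv⟩ := (Submodule.fg_iff_exists_fin_generating_family).1
        (IsNoetherian.noetherian (LinearMap.ker (Matrix.mulVecLin (E.map f))))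
      obtain ⟨D, hD⟩ := V1_lift f hf v
      have hr : LinearMap.range (Matrix.mulVecLin (D.map f)) =
          LinearMap.ker (Matrix.mulVecLin (E.map f)) := by
        rw [Matrix.range_mulVecLin, hD, hv]
      have h2 : PD S (LinearMap.range (Matrix.mulVecLin (D.map f))) (m + 2) :=
        A1_equiv (LinearEquiv.ofEq _ _ hr.symm) _ h
      have h3 := (A1_shift (Matrix.mulVecLin (D.map f)).rangeRestrict
        (LinearMap.surjective_rangeRestrict _) m).1 h2
      have h4 : PD S (LinearMap.ker (Matrix.mulVecLin (D.map f))) (m + 1) :=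
        A1_equiv (LinearEquiv.ofEq _ _ (LinearMap.ker_rangeRestrict _)) _ h3
      obtain ⟨a', D', n', h5, h6⟩ := ih D h4
      exact ⟨a, D, n' + 1, (VX_iff f hf j hj D E).2 hr, ⟨a', D', h5, h6⟩⟩

theorem V1_res {P S : Type u} [CommRing P] [CommRing S] [IsNoetherianRing S] [IsLocalRing S]
    (f : P →+* S) (hf : Function.Surjective f) {d b : ℕ} (j : Fin d → P)
    (hj : RingHom.ker f = sp j) (g : Fin b → P) (I : Ideal S)
    (hI : Ideal.span (Set.range fun k => f (g k)) = I) (n : ℕ) (hpd : PD S (S ⧸ I) n) :
    ∃ (c : ℕ) (A : Matrix (Fin b) (Fin c) P) (n' : ℕ),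
      Ex (sp j) A (row1 g) ∧ Res (sp j) n' b c A := by
  have h0 : HasProjectiveDimensionLT (ModuleCat.of S (S ⧸ I)) n := hpd
  have h1 : PD S (S ⧸ I) (n + 1 + 2) :=
    hasProjectiveDimensionLT_of_ge (ModuleCat.of S (S ⧸ I)) n (n + 1 + 2) (by omega)
  have h2 := (A1_shift (Submodule.mkQ (I : Submodule S S)) (Submodule.mkQ_surjective _)
    (n + 1)).1 h1
  let L : (Fin b → S) →ₗ[S] S :=
    (LinearMap.proj (0 : Fin 1)).comp (Matrix.mulVecLin ((row1 g).map f))
  have hL : ∀ v, L v = ∑ k, v k • f (g k) := by
    intro v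
    show ∑ k, f (g k) * v k = _
    exact Finset.sum_congr rfl fun k _ => mul_comm _ _
  have hr : LinearMap.range L = LinearMap.ker (Submodule.mkQ (I : Submodule S S)) := by
    rw [Submodule.ker_mkQ, ← hI]
    ext x
    rw [LinearMap.mem_range, Ideal.mem_span_range_iff_exists_fun]
    constructor
    · rintro ⟨v, rfl⟩
      exact ⟨v, (hL v).symm⟩
    · rintro ⟨v, hv⟩
      exact ⟨v, by rw [hL, ← hv]; rfl⟩
  have h3 : PD S (LinearMap.range L) (n + 2) :=
    A1_equiv (LinearEquiv.ofEq _ _ hr.symm) _ h2
  have h4 := (A1_shift L.rangeRestrict (LinearMap.surjective_rangeRestrict _) n).1 h3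
  have hk : LinearMap.ker L.rangeRestrict =
      LinearMap.ker (Matrix.mulVecLin ((row1 g).map f)) := by
    rw [LinearMap.ker_rangeRestrict]
    ext v
    rw [LinearMap.mem_ker, LinearMap.mem_ker]
    constructor
    · intro h
      funext i
      rw [Subsingleton.elim i 0]
      exact h
    · intro h
      exact congrFun h 0
  have h5 : PD S (LinearMap.ker (Matrix.mulVecLin ((row1 g).map f))) (n + 1) :=
    A1_equiv (LinearEquiv.ofEq _ _ hk) _ h4
  exact V1_ker f hf j hj (n + 1) (row1 g) h5

end Pool.Agent.Lib.H78D
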