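import Pool.Agent.Lib.H78D.VL

/-!
# V2 (M): from a basis of the normal module to matrices

PROOF.  `H k i`: a lift to `P` of a representative in `S` of `h i (f g_k)`.  Two functionals that agree at
all `f g_k` are equal (the `f g_k` generate `I`).
`e3`: complex part: product with a matrix without columns.  Exact: `(H v)_k ∈ (j, g)` for all `k` says that
`∑_i f (v_i) • h i` vanishes at all `f g_k` (VL_mem), so it is zero, so `f (v_i) ∈ I` (`hb.indep`), `v_i ∈ (j, g)`
by VL_mem; any `w : Fin 0 → P`.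
`e4`: complex part: VL_fun `←` for `v = H · i`.  Exact: if `A^T v ∈ (j, g)`, VL_fun gives `ψ`, `ψ = ∑ a_i • h i`
(`hb.span`), lift `a_i` to `w_i`; at `f g_k`: `f (v_k) = ∑ f (w_i) f (H k i)` modulo `I`; VL_mem.
-/

set_option autoImplicit false
open CategoryTheory IsLocalRing TensorProduct
open Pool.Agent.Lib.Helper92 Pool.Agent.Lib.H44V Pool.Agent.Lib.H78C Pool.Agent.Lib.H61E

namespace Pool.Agent.Lib.H78D
universe u

theorem V2_in {P S : Type u} [CommRing P] [CommRing S] (f : P →+* S) {b : ℕ} (g : Fin b → P)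
    (I : Ideal S) (hI : Ideal.span (Set.range fun k => f (g k)) = I) (k : Fin b) : f (g k) ∈ I := by
  rw [← hI]
  exact Ideal.subset_span ⟨k, rfl⟩

theorem V2_ext {P S : Type u} [CommRing P] [CommRing S] (f : P →+* S) {b : ℕ} (g : Fin b → P)
    (I : Ideal S) (hI : Ideal.span (Set.range fun k => f (g k)) = I) (φ ψ : I →ₗ[S] (S ⧸ I))
    (h : ∀ (k : Fin b) (hk : f (g k) ∈ I), φ ⟨f (g k), hk⟩ = ψ ⟨f (g k), hk⟩) : φ = ψ := by
  refine LinearMap.ext fun x => ?_
  obtain ⟨x, hx⟩ := x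
  have hx2 : x ∈ Ideal.span (Set.range fun k => f (g k)) := hI.symm ▸ hx
  obtain ⟨c, hc⟩ := Ideal.mem_span_range_iff_exists_fun.1 hx2
  have h1 : (⟨x, hx⟩ : I) = ∑ k, c k • (⟨f (g k), V2_in f g I hI k⟩ : I) := by
    apply Subtype.ext
    rw [AddSubmonoidClass.coe_finsetSum]
    exact hc.symm
  rw [h1, map_sum, map_sum]
  refine Finset.sum_congr rfl fun k _ => ?_
  rw [map_smul, map_smul, h k]

theorem V2_val {P S : Type u} [CommRing P] [CommRing S] (f : P →+* S) {b r : ℕ} (g : Fin b → P)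
    (I : Ideal S) (h : Fin r → (I →ₗ[S] (S ⧸ I))) (H : Matrix (Fin b) (Fin r) P)
    (hH : ∀ (i : Fin r) (k : Fin b) (hk : f (g k) ∈ I),
      h i ⟨f (g k), hk⟩ = Submodule.Quotient.mk (f (H k i))) (v : Fin r → P) (k : Fin b)
    (hk : f (g k) ∈ I) :
    (∑ i, f (v i) • h i) ⟨f (g k), hk⟩ = Submodule.Quotient.mk (f ((H.mulVec v) k)) := by
  rw [LinearMap.sum_apply]
  have h1 : f ((H.mulVec v) k) = ∑ i, f (v i) * f (H k i) := by
    rw [Matrix.mulVec, dotProduct, map_sum]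
    refine Finset.sum_congr rfl fun i _ => ?_
    rw [map_mul, mul_comm]
  rw [h1, qmk_sum]
  refine Finset.sum_congr rfl fun i _ => ?_
  rw [LinearMap.smul_apply, hH i k hk, ← Submodule.Quotient.mk_smul, smul_eq_mul]

theorem V2_col {P : Type u} [CommRing P] {b c r : ℕ} (A : Matrix (Fin b) (Fin c) P)
    (H : Matrix (Fin b) (Fin r) P) (q : Fin c) (i : Fin r) :
    (A.transpose * H) q i = (A.transpose.mulVec fun k => H k i) q := by
  rw [Matrix.mul_apply, Matrix.mulVec, dotProduct]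

theorem V2_basis {P S : Type u} [CommRing P] [CommRing S] (f : P →+* S)
    (hf : Function.Surjective f) {a b c r : ℕ} (j : Fin a → P) (g : Fin b → P)
    (A : Matrix (Fin b) (Fin c) P) (hj : RingHom.ker f = sp j) (I : Ideal S)
    (hI : Ideal.span (Set.range fun k => f (g k)) = I) (e1 : Ex (sp j) A (row1 g))
    (h : Fin r → (I →ₗ[S] (S ⧸ I))) (hb : NBasis I h) :
    ∃ H : Matrix (Fin b) (Fin r) P,
      (∀ (i : Fin r) (k : Fin b) (hk : f (g k) ∈ I),
        h i ⟨f (g k), hk⟩ = Submodule.Quotient.mk (f (H k i))) ∧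
      Ex (sp (Fin.append j g)) (0 : Matrix (Fin r) (Fin 0) P) H ∧
      Ex (sp (Fin.append j g)) H A.transpose := by
  have hm := V2_in f g I hI
  have h0 : ∀ (k : Fin b) (i : Fin r), ∃ x : P,
      h i ⟨f (g k), hm k⟩ = Submodule.Quotient.mk (f x) := by
    intro k i
    obtain ⟨s, hs⟩ := Submodule.mkQ_surjective I (h i ⟨f (g k), hm k⟩)
    obtain ⟨x, hx⟩ := hf s
    refine ⟨x, ?_⟩
    rw [hx]
    exact hs.symm
  choose H hH using h0
  have hH2 : ∀ (i : Fin r) (k : Fin b) (hk : f (g k) ∈ I),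
      h i ⟨f (g k), hk⟩ = Submodule.Quotient.mk (f (H k i)) := fun i k hk => hH k i
  refine ⟨H, hH2, ⟨fun i k => k.elim0, fun v hv => ?_⟩, fun q i => ?_, fun v hv => ?_⟩
  · have h1 : (∑ i, f (v i) • h i) = 0 := by
      refine V2_ext f g I hI _ _ fun k hk => ?_
      rw [V2_val f g I h H hH2 v k hk, LinearMap.zero_apply, Submodule.Quotient.mk_eq_zero]
      exact (VL_mem f hf j g hj I hI _).1 (hv k)
    have h2 := hb.indep (fun i => f (v i)) h1
    refine ⟨fun i => i.elim0, fun i => ?_⟩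
    rw [Matrix.zero_mulVec, Pi.zero_apply, sub_zero]
    exact (VL_mem f hf j g hj I hI _).2 (h2 i)
  · rw [V2_col A H q i]
    exact (VL_fun f hf j g A hj I hI e1 (fun k => H k i)).2 ⟨h i, fun k hk => hH2 i k hk⟩ q
  · obtain ⟨ψ, hψ⟩ := (VL_fun f hf j g A hj I hI e1 v).1 hv
    obtain ⟨a, ha⟩ := hb.span ψ
    choose w hw using fun i => hf (a i)
    refine ⟨w, fun k => (VL_mem f hf j g hj I hI _).2 ?_⟩
    have h3 : ψ = ∑ i, f (w i) • h i := by
      rw [ha]
      exact Finset.sum_congr rfl fun i _ => by rw [hw i]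
    have h4 := V2_val f g I h H hH2 w k (hm k)
    rw [← h3, hψ k (hm k), Submodule.Quotient.eq] at h4
    rw [map_sub]
    exact h4

end Pool.Agent.Lib.H78D
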