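import Pool.Agent.Lib.H78D.VX
import Pool.Agent.Lib.H78C.A1

/-!
# V3 (M): from a matrix resolution to finite projective dimension

`V3_ker`: PROOF by induction on `n`, for all `b`, `c`, `E`.  `n = 0`: the kernel over `S` is the range of a
matrix with no columns, so it is `⊥`, PD 0, hence PD 1 (hasProjectiveDimensionLT_of_ge).  `n + 1`: `D` with
range (D.map f) = ker (E.map f) (VX_iff); the map `(Fin a → S) → ker (E.map f)` (codRestrict) is surjective
with kernel `ker (mulVecLin (D.map f))`, which has PD (n + 1) by induction, so A1_shift gives PD (n + 2).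
`V3_quot`: the kernel of `v ↦ ∑ v_k f (g k)`, `(Fin b → S) → I` is `ker (mulVecLin ((row1 g).map f))` = range
of `A` (e1), onto which `Fin c → S` maps with kernel `ker (mulVecLin (A.map f))`, PD (n + 1); so PD (n + 2)
for the kernel of the row, PD (n + 3) for `I`, PD (n + 4) for `S/I` (A1_shift three times).
-/

set_option autoImplicit false
open CategoryTheory IsLocalRing TensorProduct
open Pool.Agent.Lib.Helper92 Pool.Agent.Lib.H44V Pool.Agent.Lib.H78C Pool.Agent.Lib.H61E

namespace Pool.Agent.Lib.H78D
universe u

theorem V3_ker {P S : Type u} [CommRing P] [CommRing S] (f : P →+* S)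
    (hf : Function.Surjective f) {d : ℕ} (j : Fin d → P) (hj : RingHom.ker f = sp j) (n : ℕ) :
    ∀ {b c : ℕ} (E : Matrix (Fin c) (Fin b) P), Res (sp j) n c b E →
      PD S (LinearMap.ker (Matrix.mulVecLin (E.map f))) (n + 1) := by
  induction n with
  | zero =>
    intro b c E h
    have h1 := (VX_iff f hf j hj (0 : Matrix (Fin b) (Fin 0) P) E).1 h
    have h2 : LinearMap.ker (Matrix.mulVecLin (E.map f)) = ⊥ := by
      rw [← h1, LinearMap.range_eq_bot]
      apply LinearMap.ext
      intro v
      funext i
      simp
    have h3 : Subsingleton (LinearMap.ker (Matrix.mulVecLin (E.map f))) := by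
      rw [h2]; infer_instance
    have h4 : PD S (LinearMap.ker (Matrix.mulVecLin (E.map f))) 0 := A1_zero.2 h3
    exact A1_one.2 (by
      have := h3
      infer_instance)
  | succ n ih =>
    intro b c E h
    obtain ⟨a, D, hD, hR⟩ := h
    have h1 := (VX_iff f hf j hj D E).1 hD
    have h2 := ih D hR
    have hm : ∀ v : Fin a → S, Matrix.mulVecLin (D.map f) v ∈
        LinearMap.ker (Matrix.mulVecLin (E.map f)) := by
      intro v
      rw [← h1]
      exact ⟨v, rfl⟩
    have hs : Function.Surjective ((Matrix.mulVecLin (D.map f)).codRestrict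
        (LinearMap.ker (Matrix.mulVecLin (E.map f))) hm) := by
      rintro ⟨w, hw⟩
      have hw2 := hw
      rw [← h1] at hw2
      obtain ⟨v, hv⟩ := hw2
      exact ⟨v, Subtype.ext hv⟩
    have h3 := (A1_shift ((Matrix.mulVecLin (D.map f)).codRestrict
        (LinearMap.ker (Matrix.mulVecLin (E.map f))) hm) hs n).2
    rw [LinearMap.ker_codRestrict] at h3
    exact h3 h2

theorem V3_quot {P S : Type u} [CommRing P] [CommRing S] (f : P →+* S)
    (hf : Function.Surjective f) {d b c : ℕ} (j : Fin d → P) (hj : RingHom.ker f = sp j)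
    (g : Fin b → P) (I : Ideal S) (hI : Ideal.span (Set.range fun k => f (g k)) = I)
    (A : Matrix (Fin b) (Fin c) P) (n : ℕ) (e1 : Ex (sp j) A (row1 g))
    (e2 : Res (sp j) n b c A) : PD S (S ⧸ I) (n + 4) := by
  have h1 : PD S (LinearMap.ker (Matrix.mulVecLin ((row1 g).map f))) (n + 1 + 1) :=
    V3_ker f hf j hj (n + 1) (row1 g) ⟨c, A, e1, e2⟩
  have hr : LinearMap.range (Fintype.linearCombination S (fun k => f (g k))) = I := by
    rw [Fintype.range_linearCombination]
    exact hI
  have hm : ∀ v : Fin b → S, Fintype.linearCombination S (fun k => f (g k)) v ∈ I := by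
    intro v
    have : Fintype.linearCombination S (fun k => f (g k)) v ∈
      LinearMap.range (Fintype.linearCombination S (fun k => f (g k))) := ⟨v, rfl⟩
    rw [hr] at this
    exact this
  have hs : Function.Surjective ((Fintype.linearCombination S (fun k => f (g k))).codRestrict
      I hm) := by
    rintro ⟨w, hw⟩
    have hw2 := hw
    rw [← hr] at hw2
    obtain ⟨v, hv⟩ := hw2
    exact ⟨v, Subtype.ext hv⟩
  have hk : LinearMap.ker ((Fintype.linearCombination S (fun k => f (g k))).codRestrict
      I hm) = LinearMap.ker (Matrix.mulVecLin ((row1 g).map f)) := by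
    rw [LinearMap.ker_codRestrict]
    ext v
    rw [LinearMap.mem_ker, LinearMap.mem_ker]
    constructor
    · intro h
      funext i
      rw [Fintype.linearCombination_apply] at h
      simp only [Matrix.mulVecLin_apply, Matrix.mulVec, dotProduct, Matrix.map_apply, row1,
        Pi.zero_apply]
      rw [← h]
      refine Finset.sum_congr rfl fun k _ => ?_
      rw [smul_eq_mul, mul_comm]
    · intro h
      have h0 := congrFun h 0
      simp only [Matrix.mulVecLin_apply, Matrix.mulVec, dotProduct, Matrix.map_apply, row1,
        Pi.zero_apply] at h0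
      rw [Fintype.linearCombination_apply, ← h0]
      refine Finset.sum_congr rfl fun k _ => ?_
      rw [smul_eq_mul, mul_comm]
  have h2 : PD S I (n + 1 + 2) := by
    have h3 := (A1_shift ((Fintype.linearCombination S (fun k => f (g k))).codRestrict
      I hm) hs (n + 1)).2
    rw [hk] at h3
    exact h3 h1
  have h4 := (A1_shift (Submodule.mkQ I) (Submodule.mkQ_surjective I) (n + 2)).2
  rw [Submodule.ker_mkQ] at h4
  exact h4 h2

end Pool.Agent.Lib.H78D
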