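import Pool.Agent.Lib.H78D.VL

/-!
# V4 (M): from matrices to a basis of the normal module

PROOF.  `h i` is given by VL_fun `→` for `v = H · i` (the complex part of e4: `(A^T H) q i ∈ (j, g)`).
`indep`: `∑ a_i • h i = 0`, lift `a_i` to `v_i`; evaluating at `f g_k` gives `(H v)_k ∈ (j, g)` (VL_mem), so e3
gives `v_i ∈ (j, g)` (`w : Fin 0 → P`, the product with the matrix without columns is `0`), `a_i ∈ I`.
`span`: a functional `ψ`, lift its values at `f g_k` to `v_k`; VL_fun `←`: `A^T v ∈ (j, g)`; e4: `w` with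
`v - H w ∈ (j, g)`; so `ψ = ∑ f (w_i) • h i` at all `f g_k`, hence everywhere.
-/

set_option autoImplicit false
open CategoryTheory IsLocalRing TensorProduct
open Pool.Agent.Lib.Helper92 Pool.Agent.Lib.H44V Pool.Agent.Lib.H78C Pool.Agent.Lib.H61E

namespace Pool.Agent.Lib.H78D
universe u

theorem V4_in {P S : Type u} [CommRing P] [CommRing S] (f : P →+* S) {b : ℕ} (g : Fin b → P)
    (I : Ideal S) (hI : Ideal.span (Set.range fun k => f (g k)) = I) (k : Fin b) : f (g k) ∈ I := by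
  rw [← hI]
  exact Ideal.subset_span ⟨k, rfl⟩

theorem V4_ext {P S : Type u} [CommRing P] [CommRing S] (f : P →+* S) {b : ℕ} (g : Fin b → P)
    (I : Ideal S) (hI : Ideal.span (Set.range fun k => f (g k)) = I) (φ ψ : I →ₗ[S] (S ⧸ I))
    (h : ∀ (k : Fin b) (hk : f (g k) ∈ I), φ ⟨f (g k), hk⟩ = ψ ⟨f (g k), hk⟩) : φ = ψ := by
  refine LinearMap.ext fun x => ?_
  obtain ⟨x, hx⟩ := x
  have hx2 : x ∈ Ideal.span (Set.range fun k => f (g k)) := hI.symm ▸ hx
  obtain ⟨c, hc⟩ := Ideal.mem_span_range_iff_exists_fun.1 hx2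
  have h1 : (⟨x, hx⟩ : I) = ∑ k, c k • (⟨f (g k), V4_in f g I hI k⟩ : I) := by
    apply Subtype.ext
    rw [AddSubmonoidClass.coe_finsetSum]
    exact hc.symm
  rw [h1, map_sum, map_sum]
  refine Finset.sum_congr rfl fun k _ => ?_
  rw [map_smul, map_smul, h k]

theorem V4_val {P S : Type u} [CommRing P] [CommRing S] (f : P →+* S) {b r : ℕ} (g : Fin b → P)
    (I : Ideal S) (h : Fin r → (I →ₗ[S] (S ⧸ I))) (H : Matrix (Fin b) (Fin r) P)
    (hH : ∀ (i : Fin r) (k : Fin b) (hk : f (g k) ∈ I),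
      h i ⟨f (g k), hk⟩ = Submodule.Quotient.mk (f (H k i))) (v : Fin r → P) (k : Fin b)
    (hk : f (g k) ∈ I) :
    (∑ i, f (v i) • h i) ⟨f (g k), hk⟩ = Submodule.Quotient.mk (f ((H.mulVec v) k)) := by
  rw [LinearMap.sum_apply]
  have h1 : f ((H.mulVec v) k) = ∑ i, f (v i) * f (H k i) := by
    rw [Matrix.mulVec, dotProduct, map_sum]
    refine Finset.sum_congr rfl fun i _ => ?_
    rw [map_mul, mul_comm]
  rw [h1, qmk_sum]
  refine Finset.sum_congr rfl fun i _ => ?_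
  rw [LinearMap.smul_apply, hH i k hk, ← Submodule.Quotient.mk_smul, smul_eq_mul]

theorem V4_col {P : Type u} [CommRing P] {b c r : ℕ} (A : Matrix (Fin b) (Fin c) P)
    (H : Matrix (Fin b) (Fin r) P) (q : Fin c) (i : Fin r) :
    (A.transpose * H) q i = (A.transpose.mulVec fun k => H k i) q := by
  rw [Matrix.mul_apply, Matrix.mulVec, dotProduct]

theorem V4_basis {P S : Type u} [CommRing P] [CommRing S] (f : P →+* S)
    (hf : Function.Surjective f) {a b c r : ℕ} (j : Fin a → P) (g : Fin b → P)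
    (A : Matrix (Fin b) (Fin c) P) (hj : RingHom.ker f = sp j) (I : Ideal S)
    (hI : Ideal.span (Set.range fun k => f (g k)) = I) (e1 : Ex (sp j) A (row1 g))
    (H : Matrix (Fin b) (Fin r) P)
    (e3 : Ex (sp (Fin.append j g)) (0 : Matrix (Fin r) (Fin 0) P) H)
    (e4 : Ex (sp (Fin.append j g)) H A.transpose) :
    ∃ h : Fin r → (I →ₗ[S] (S ⧸ I)), NBasis I h ∧
      ∀ (i : Fin r) (k : Fin b) (hk : f (g k) ∈ I),
        h i ⟨f (g k), hk⟩ = Submodule.Quotient.mk (f (H k i)) := by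
  have hm := V4_in f g I hI
  have h0 : ∀ i : Fin r, ∃ ψ : I →ₗ[S] (S ⧸ I), ∀ (k : Fin b) (hk : f (g k) ∈ I),
      ψ ⟨f (g k), hk⟩ = Submodule.Quotient.mk (f (H k i)) := by
    intro i
    refine (VL_fun f hf j g A hj I hI e1 (fun k => H k i)).1 fun q => ?_
    rw [← V4_col A H q i]
    exact e4.1 q i
  choose h hH using h0
  refine ⟨h, ⟨fun a ha i => ?_, fun ψ => ?_⟩, hH⟩
  · choose v hv using fun i => hf (a i)
    have h1 : ∑ i, f (v i) • h i = 0 := by
      rw [← ha]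
      exact Finset.sum_congr rfl fun i _ => by rw [hv i]
    obtain ⟨w, hw⟩ := e3.2 v fun k => by
      have h2 := V4_val f g I h H hH v k (hm k)
      rw [h1, LinearMap.zero_apply, eq_comm, Submodule.Quotient.mk_eq_zero] at h2
      exact (VL_mem f hf j g hj I hI _).2 h2
    have h3 := hw i
    rw [Matrix.zero_mulVec, Pi.zero_apply, sub_zero] at h3
    rw [← hv i]
    exact (VL_mem f hf j g hj I hI _).1 h3
  · have h4 : ∀ k : Fin b, ∃ x : P, ψ ⟨f (g k), hm k⟩ = Submodule.Quotient.mk (f x) := by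
      intro k
      obtain ⟨s, hs⟩ := Submodule.mkQ_surjective I (ψ ⟨f (g k), hm k⟩)
      obtain ⟨x, hx⟩ := hf s
      refine ⟨x, ?_⟩
      rw [hx]
      exact hs.symm
    choose v hv using h4
    have h5 := (VL_fun f hf j g A hj I hI e1 v).2 ⟨ψ, fun k _ => hv k⟩
    obtain ⟨w, hw⟩ := e4.2 v h5
    refine ⟨fun i => f (w i), V4_ext f g I hI _ _ fun k hk => ?_⟩
    rw [V4_val f g I h H hH w k hk, hv k, Submodule.Quotient.eq, ← map_sub]
    exact (VL_mem f hf j g hj I hI _).1 (hw k)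

end Pool.Agent.Lib.H78D
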