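import Pool.Agent.Lib.H78D.SD
import Pool.Agent.Lib.H78D.V1
import Pool.Agent.Lib.H78D.V2
import Pool.Agent.Lib.H78D.V3
import Pool.Agent.Lib.H78D.V4
import Pool.Agent.Lib.H78D.U5
import Pool.Agent.Lib.H78D.K0
import Pool.Agent.Lib.H61E.ST3

/-!
# U6A (L, assembly): a unit value for quotients of power series rings

PROOF.  Suppose not: every representative of every value is a nonunit.  `P = MvPowerSeries (Fin m) k`
(Noetherian, local).  `ker f = sp j`, `I = span (f ∘ g)` (choose generators, Noetherian, lift).  V1_res: `A`,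
`n'`.  V2_basis: `H`.  So `Dat n' j g A H`.  `j`, `g`, `H` have their entries in the maximal ideal (`f` is
local: a unit goes to a unit).  `ι = Fin a ⊕ Fin b ⊕ (Fin b × Fin c) ⊕ (Fin b × Fin (r + 1))`, `y` the family of
all the entries.  Stable: SD_dat and the memberships (ST2_mem, ST2_all).  ST3_main gives `B`, `z`.  Let
`j'`, `g'`, `A'`, `H'` be the images in `P`: `Dat n' j' g' A' H'`, all in the maximal ideal.  `S₂ = P ⧸ sp j'`,
`f₂ = mk`, `I₂ = span (f₂ ∘ g') ≠ ⊤`.  V3_quot: PD.  V4_basis: `h₂`.  K0_ci (with `z ∘ ..`): `CI I₂ (r + 1)`.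
U5_unit: some value `h₂ i (f₂ g'_k) = mk c` with `c` a unit; but it is `mk (f₂ (H' k i))` with `H' k i` in the
maximal ideal, so `c - f₂ (H' k i) ∈ I₂`, contained in the maximal ideal: contradiction.
-/

set_option autoImplicit false
open CategoryTheory IsLocalRing TensorProduct
open Pool.Agent.Lib.Helper92 Pool.Agent.Lib.H44V Pool.Agent.Lib.H78C Pool.Agent.Lib.H61E

namespace Pool.Agent.Lib.H78D
universe u

theorem U6A_gens {P : Type u} [CommRing P] [IsNoetherianRing P] (J : Ideal P) :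
    ∃ (a : ℕ) (j : Fin a → P), J = sp j := by
  obtain ⟨a, j, h⟩ := (Submodule.fg_iff_exists_fin_generating_family (N := J)).1
    (IsNoetherian.noetherian J)
  exact ⟨a, j, h.symm⟩

theorem U6A_local {P S : Type u} [CommRing P] [IsLocalRing P] [CommRing S] [Nontrivial S]
    (f : P →+* S) (hf : Function.Surjective f) (x : P) (hx : IsUnit (f x)) : IsUnit x := by
  by_contra hc
  have h1 : x ∈ maximalIdeal P := (mem_maximalIdeal x).2 hc
  obtain ⟨s, hs⟩ := hx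
  obtain ⟨y, hy⟩ := hf (↑(s⁻¹) : S)
  have h2 : f (1 - x * y) = 0 := by
    rw [map_sub, map_mul, map_one, hy, ← hs, Units.mul_inv, sub_self]
  have h3 : IsUnit (1 - x * y) := by
    by_contra h4
    have h5 : (1 - x * y) + x * y ∈ maximalIdeal P :=
      add_mem ((mem_maximalIdeal _).2 h4) (Ideal.mul_mem_right _ _ h1)
    rw [sub_add_cancel] at h5
    exact (Ideal.ne_top_iff_one _).1 (maximalIdeal.isMaximal P).ne_top h5
  have h6 := h3.map f
  rw [h2] at h6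
  exact not_isUnit_zero h6

theorem U6A_mk {S : Type u} [CommRing S] [IsLocalRing S] (I : Ideal S) (hI : I ≤ maximalIdeal S)
    (c d : S) (hd : d ∈ maximalIdeal S)
    (h : (Submodule.Quotient.mk c : S ⧸ I) = Submodule.Quotient.mk d) : ¬ IsUnit c := by
  have h1 : c - d ∈ I := (Submodule.Quotient.eq I).1 h
  have h2 : c - d + d ∈ maximalIdeal S := add_mem (hI h1) hd
  rw [sub_add_cancel] at h2
  exact (mem_maximalIdeal c).1 h2

theorem U6A_unit {k : Type u} [Field k] [CharZero k] (m : ℕ) {S : Type u} [CommRing S]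
    [IsLocalRing S] (f : MvPowerSeries (Fin m) k →+* S) (hf : Function.Surjective f)
    (I : Ideal S) (hI : I ≠ ⊤) (n : ℕ) (hpd : PD S (S ⧸ I) n) (r : ℕ)
    (h : Fin (r + 1) → (I →ₗ[S] (S ⧸ I))) (hb : NBasis I h) :
    ∃ (i : Fin (r + 1)) (y : I) (a : S), IsUnit a ∧ h i y = Submodule.Quotient.mk a := by
  classical
  by_contra hcon
  have hSn : IsNoetherianRing S := isNoetherianRing_of_surjective _ _ f hf
  obtain ⟨a, j, hj⟩ := U6A_gens (RingHom.ker f)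
  obtain ⟨b, g, hg⟩ : ∃ (b : ℕ) (g : Fin b → MvPowerSeries (Fin m) k),
      Ideal.span (Set.range fun k => f (g k)) = I := by
    obtain ⟨b, g₀, hg₀⟩ := U6A_gens I
    choose g hg using fun k => hf (g₀ k)
    refine ⟨b, g, ?_⟩
    rw [hg₀]
    simp only [hg]
  obtain ⟨c, A, n', e1, e2⟩ := V1_res f hf j hj g I hg n hpd
  obtain ⟨H, hH, e3, e4⟩ := V2_basis f hf j g A hj I hg e1 h hb
  have hgI : ∀ k, f (g k) ∈ I := by
    intro k
    rw [← hg]
    exact Ideal.subset_span ⟨k, rfl⟩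
  -- the entries in the maximal ideal
  have hjm : ∀ i, j i ∈ maximalIdeal (MvPowerSeries (Fin m) k) := by
    intro i
    rw [mem_maximalIdeal]
    intro hu
    have h1 : j i ∈ RingHom.ker f := by
      rw [hj]
      exact Ideal.subset_span ⟨i, rfl⟩
    have h2 := hu.map f
    rw [RingHom.mem_ker.1 h1] at h2
    exact not_isUnit_zero h2
  have hgm : ∀ i, g i ∈ maximalIdeal (MvPowerSeries (Fin m) k) := by
    intro i
    rw [mem_maximalIdeal]
    intro hu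
    exact hI (Ideal.eq_top_of_isUnit_mem _ (hgI i) (hu.map f))
  have hHm : ∀ s i, H s i ∈ maximalIdeal (MvPowerSeries (Fin m) k) := by
    intro s i
    rw [mem_maximalIdeal]
    intro hu
    exact hcon ⟨i, ⟨f (g s), hgI s⟩, f (H s i), hu.map f, hH i s (hgI s)⟩
  -- the family
  obtain ⟨y, hy⟩ : ∃ y : (Fin a ⊕ (Fin b ⊕ ((Fin b × Fin c) ⊕ (Fin b × Fin (r + 1))))) →
      MvPowerSeries (Fin m) k, y = Sum.elim j (Sum.elim g (Sum.elim (fun p => A p.1 p.2)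
        (fun p => H p.1 p.2))) := ⟨_, rfl⟩
  let G : Fin a → (Fin a ⊕ (Fin b ⊕ ((Fin b × Fin c) ⊕ (Fin b × Fin (r + 1))))) := Sum.inl
  let γ : Fin b → (Fin a ⊕ (Fin b ⊕ ((Fin b × Fin c) ⊕ (Fin b × Fin (r + 1))))) :=
    fun s => Sum.inr (Sum.inl s)
  let α : Matrix (Fin b) (Fin c) (Fin a ⊕ (Fin b ⊕ ((Fin b × Fin c) ⊕ (Fin b × Fin (r + 1))))) :=
    fun s t => Sum.inr (Sum.inr (Sum.inl (s, t)))
  let η : Matrix (Fin b) (Fin (r + 1))
      (Fin a ⊕ (Fin b ⊕ ((Fin b × Fin c) ⊕ (Fin b × Fin (r + 1))))) :=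
    fun s t => Sum.inr (Sum.inr (Sum.inr (s, t)))
  have hyG : y ∘ G = j := by rw [hy]; rfl
  have hyγ : y ∘ γ = g := by rw [hy]; rfl
  have hyα : α.map y = A := by rw [hy]; rfl
  have hyη : η.map y = H := by rw [hy]; rfl
  have hD : Dat n' (y ∘ G) (y ∘ γ) (α.map y) (η.map y) := by
    rw [hyG, hyγ, hyα, hyη]
    exact ⟨e1, e2, e3, e4⟩
  have hst := ST2_and (SD_dat y n' G γ α η hD)
    (ST2_all (τ := {t // y t ∈ maximalIdeal (MvPowerSeries (Fin m) k)})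
      (Q := fun t y' => y' t.1 ∈ maximalIdeal (MvPowerSeries (Fin m) k)) (y := y)
      (fun t => ST2_mem t.1 t.2))
  obtain ⟨B, _, _, _, _, _, _, _, z, ⟨hD', hm'⟩, -, -⟩ := ST3_main m y _ hst 0
  obtain ⟨y', hy'⟩ : ∃ y' : (Fin a ⊕ (Fin b ⊕ ((Fin b × Fin c) ⊕ (Fin b × Fin (r + 1))))) →
      MvPowerSeries (Fin m) k, y' = fun i => algebraMap B (MvPowerSeries (Fin m) k) (z i) :=
    ⟨_, rfl⟩
  rw [← hy'] at hD' hm'
  have hm : ∀ t, y t ∈ maximalIdeal (MvPowerSeries (Fin m) k) →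
      y' t ∈ maximalIdeal (MvPowerSeries (Fin m) k) := fun t ht => hm' ⟨t, ht⟩
  have hGm : ∀ i, y' (G i) ∈ maximalIdeal (MvPowerSeries (Fin m) k) := fun i =>
    hm _ (by rw [show y (G i) = j i from congrFun hyG i]; exact hjm i)
  have hγm : ∀ i, y' (γ i) ∈ maximalIdeal (MvPowerSeries (Fin m) k) := fun i =>
    hm _ (by rw [show y (γ i) = g i from congrFun hyγ i]; exact hgm i)
  have hηm : ∀ s i, y' (η s i) ∈ maximalIdeal (MvPowerSeries (Fin m) k) := fun s i =>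
    hm _ (by rw [show y (η s i) = H s i from congrFun (congrFun hyη s) i]; exact hHm s i)
  have hle : sp (y' ∘ G) ≤ maximalIdeal (MvPowerSeries (Fin m) k) := by
    rw [Ideal.span_le]
    rintro _ ⟨i, rfl⟩
    exact hGm i
  have hne : sp (y' ∘ G) ≠ ⊤ := fun h0 =>
    (maximalIdeal.isMaximal _).ne_top (top_le_iff.1 (h0 ▸ hle))
  have hnt : Nontrivial (MvPowerSeries (Fin m) k ⧸ sp (y' ∘ G)) :=
    Ideal.Quotient.nontrivial_iff.mpr hne
  have hloc : IsLocalRing (MvPowerSeries (Fin m) k ⧸ sp (y' ∘ G)) :=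
    IsLocalRing.of_surjective' (Ideal.Quotient.mk (sp (y' ∘ G))) Ideal.Quotient.mk_surjective
  have hmk : ∀ x ∈ maximalIdeal (MvPowerSeries (Fin m) k),
      Ideal.Quotient.mk (sp (y' ∘ G)) x ∈ maximalIdeal (MvPowerSeries (Fin m) k ⧸ sp (y' ∘ G)) := by
    intro x hx
    rw [mem_maximalIdeal]
    intro hu
    exact (mem_maximalIdeal x).1 hx (U6A_local _ Ideal.Quotient.mk_surjective x hu)
  have hI₂ : Ideal.span (Set.range fun i => Ideal.Quotient.mk (sp (y' ∘ G)) ((y' ∘ γ) i)) ≤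
      maximalIdeal (MvPowerSeries (Fin m) k ⧸ sp (y' ∘ G)) := by
    rw [Ideal.span_le]
    rintro _ ⟨i, rfl⟩
    exact hmk _ (hγm i)
  obtain ⟨I₂, hI₂'⟩ : ∃ I₂ : Ideal (MvPowerSeries (Fin m) k ⧸ sp (y' ∘ G)),
      Ideal.span (Set.range fun i => Ideal.Quotient.mk (sp (y' ∘ G)) ((y' ∘ γ) i)) = I₂ :=
    ⟨_, rfl⟩
  rw [hI₂'] at hI₂
  have hI₂t : I₂ ≠ ⊤ := fun h0 =>
    (maximalIdeal.isMaximal _).ne_top (top_le_iff.1 (h0 ▸ hI₂))
  have hker : RingHom.ker (Ideal.Quotient.mk (sp (y' ∘ G))) = sp (y' ∘ G) := Ideal.mk_ker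
  have hpd₂ := V3_quot (Ideal.Quotient.mk (sp (y' ∘ G))) Ideal.Quotient.mk_surjective (y' ∘ G)
    hker (y' ∘ γ) I₂ hI₂' (α.map y') n' hD'.e1 hD'.e2
  obtain ⟨h₂, hb₂, hv₂⟩ := V4_basis (Ideal.Quotient.mk (sp (y' ∘ G)))
    Ideal.Quotient.mk_surjective (y' ∘ G) (y' ∘ γ) (α.map y') hker I₂ hI₂' hD'.e1 (η.map y')
    hD'.e3 hD'.e4
  have hci : CI I₂ (r + 1) := by
    refine K0_ci (k := k) (B := B) (P := MvPowerSeries (Fin m) k) (z ∘ G) (z ∘ γ)
      (Ideal.Quotient.mk (sp (y' ∘ G))) Ideal.Quotient.mk_surjective ?_ I₂ ?_ hI₂t (n' + 4)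
      hpd₂ (r + 1) ⟨h₂, hb₂⟩
    · rw [hker, hy']
      rfl
    · rw [← hI₂', hy']
      rfl
  obtain ⟨i, s, hk, u, hu, hval⟩ := U5_unit I₂ hI₂t r hci h₂ hb₂
    (fun i => Ideal.Quotient.mk (sp (y' ∘ G)) ((y' ∘ γ) i)) hI₂'
  have h1 := hv₂ i s hk
  rw [hval] at h1
  exact U6A_mk I₂ hI₂ u _ (hmk _ (hηm s i)) h1 hu

end Pool.Agent.Lib.H78D
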