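import Pool.Agent.Lib.H78D.U6C

/-!
# U6B (S): induction on the rank

PROOF.  Copy of Pool.Agent.Lib.H44V.A11_depthOne (file H44V/A11) with A5_unit replaced by U6C_unit and
without the depth hypothesis.
-/

set_option autoImplicit false
open CategoryTheory IsLocalRing TensorProduct
open Pool.Agent.Lib.Helper92 Pool.Agent.Lib.H44V Pool.Agent.Lib.H78C Pool.Agent.Lib.H61E

namespace Pool.Agent.Lib.H78D
universe u

theorem U6B_main (r : ℕ) : ∀ (S : Type u) [CommRing S] [IsNoetherianRing S] [IsLocalRing S]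
    [Algebra ℚ S] (I : Ideal S) (_ : I ≠ ⊤) (n : ℕ) (_ : HasProjectiveDimensionLT (Qt I) n)
    (h : Fin r → (I →ₗ[S] (S ⧸ I))) (_ : NBasis I h), CI I r := by
  induction r with
  | zero =>
    intro S _ _ _ _ I hI n hpd h hb
    have hsub : Subsingleton (I →ₗ[S] (S ⧸ I)) := by
      refine ⟨fun g g' => ?_⟩
      obtain ⟨a, ha⟩ := hb.span g
      obtain ⟨a', ha'⟩ := hb.span g'
      rw [ha, ha', Finset.univ_eq_empty, Finset.sum_empty, Finset.sum_empty]
    obtain ⟨a, ha, hreg⟩ := IsSMulRegular.subsingleton_linearMap_iff.1 hsub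
    have hI0 : I = ⊥ := by
      by_contra h0
      obtain ⟨z, hzI, hz⟩ := A4_nzd h0 n hpd
      have h1 : a • (⟨z, hzI⟩ : I) = 0 := Module.mem_annihilator.1 ha _
      have h2 : a * z = 0 := congrArg Subtype.val h1
      have h3 : a = 0 := by
        apply hz
        show z • a = z • (0 : S)
        rw [smul_eq_mul, smul_zero, mul_comm]
        exact h2
      rw [h3] at hreg
      have h4 : Nontrivial (S ⧸ I) := Ideal.Quotient.nontrivial_iff.mpr hI
      exact one_ne_zero (hreg (show (0 : S) • (1 : S ⧸ I) = (0 : S) • (0 : S ⧸ I) by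
        rw [zero_smul, zero_smul]))
    exact ⟨fun _ => 0, fun j hj => absurd hj (Nat.not_lt_zero j), hI0.symm⟩
  | succ r ih =>
    intro S _ _ _ _ I hI n hpd h hb
    have h0 : I ≠ ⊥ := by
      intro h0
      have h1 : (∑ i, (1 : S) • h i) = 0 := by
        refine LinearMap.ext fun z => ?_
        have h2 : z = 0 := by
          apply Subtype.ext
          exact (Submodule.mem_bot S).1 (h0.le z.2)
        rw [h2, map_zero, map_zero]
      have h3 := hb.indep (fun _ => 1) h1 0
      exact hI ((Ideal.eq_top_iff_one I).2 h3)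
    obtain ⟨z, hzI, hz⟩ := A4_nzd h0 n hpd
    obtain ⟨i, y₀, a, ha, hy₀⟩ := U6C_unit I hI n hpd r h hb
    obtain ⟨y, hyreg, hy⟩ := A6_regular_unit hI z hzI hz (h i) y₀ a hy₀
    obtain ⟨n', hn'⟩ := A8_pd_quot y hyreg (h i) a ha hy n hpd
    obtain ⟨h', hb'⟩ := A9_nbasis hb i y a ha hy
    have hle : Ideal.span {(y : S)} ≤ I := (Ideal.span_singleton_le_iff_mem I).2 y.2
    have hne : Ideal.span {(y : S)} ≠ ⊤ := fun h1 => hI (top_le_iff.1 (h1 ▸ hle))
    have hnt : Nontrivial (S ⧸ Ideal.span {(y : S)}) := Ideal.Quotient.nontrivial_iff.mpr hne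
    have hloc : IsLocalRing (S ⧸ Ideal.span {(y : S)}) :=
      IsLocalRing.of_surjective' (Ideal.Quotient.mk (Ideal.span {(y : S)}))
        Ideal.Quotient.mk_surjective
    have hI' : I.map (Ideal.Quotient.mk (Ideal.span {(y : S)})) ≠ ⊤ := by
      intro h1
      have h2 : Nontrivial (S ⧸ I) := Ideal.Quotient.nontrivial_iff.mpr hI
      have h3 : Nontrivial ((S ⧸ Ideal.span {(y : S)}) ⧸
          I.map (Ideal.Quotient.mk (Ideal.span {(y : S)}))) :=
        (DoubleQuot.quotQuotEquivQuotOfLE hle).toEquiv.nontrivial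
      exact (Ideal.Quotient.nontrivial_iff.1 h3) h1
    have h4 := ih (S ⧸ Ideal.span {(y : S)}) (I.map (Ideal.Quotient.mk (Ideal.span {(y : S)})))
      hI' n' hn' h' hb'
    exact A10_lift (y : S) y.2 hyreg h4

end Pool.Agent.Lib.H78D
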