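import Pool.Agent.Lib.H78D.U6A
import Pool.Agent.Lib.H78D.G1
import Pool.Agent.Lib.H78D.G2
import Pool.Agent.Lib.H61E.CH
import Pool.Agent.Lib.H61E.CH0

/-!
# U6C (M): a unit value for all Noetherian local rings containing the rational numbers

PROOF.  `C = AdicCompletion (maximalIdeal S) S`: local, complete, Noetherian (CH0 of H61E), flat over `S`,
local homomorphism, `IC ≠ ⊤` (contained in the maximal ideal).  `Algebra ℚ C` by composition
(`(algebraMap S C).comp (algebraMap ℚ S)`).  CH_main: `k`, `m`, `π` surjective.  G1_quot, G2_up, U6A_unit: a unit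
value `h' i y' = mk a'`, `y' ∈ IC`.  Suppose all values of the `h i` on `I` have representatives in `m`; `y'` is a
finite sum `∑ s_l • (image of y_l)`, `y_l ∈ I` (`Submodule.span_induction` on `y' ∈ span (image of I)`), so
`h' i y' = mk (∑ s_l * image of c_l)` lies in `mk` of the maximal ideal of `C`: contradiction.
(Property to be shown by span induction: `h' i y'` = mk of an element of the maximal ideal of `C`.)
-/

set_option autoImplicit false
open CategoryTheory IsLocalRing TensorProduct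
open Pool.Agent.Lib.Helper92 Pool.Agent.Lib.H44V Pool.Agent.Lib.H78C Pool.Agent.Lib.H61E

namespace Pool.Agent.Lib.H78D
universe u

theorem U6C_unit {S : Type u} [CommRing S] [IsNoetherianRing S] [IsLocalRing S] [Algebra ℚ S]
    (I : Ideal S) (hI : I ≠ ⊤) (n : ℕ) (hpd : PD S (S ⧸ I) n) (r : ℕ)
    (h : Fin (r + 1) → (I →ₗ[S] (S ⧸ I))) (hb : NBasis I h) :
    ∃ (i : Fin (r + 1)) (y : I) (a : S), IsUnit a ∧ h i y = Submodule.Quotient.mk a := by
  have hN := CH0_noeth S
  have hF := CH0_flat S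
  obtain ⟨k, _, _, m, π, hπ⟩ := CH_main (AdicCompletion (maximalIdeal S) S)
  have hle : I.map (algebraMap S (AdicCompletion (maximalIdeal S) S)) ≤
      maximalIdeal (AdicCompletion (maximalIdeal S) S) := by
    rw [AdicCompletion.maximalIdeal_eq_map]
    exact Ideal.map_mono (le_maximalIdeal hI)
  have hIC : I.map (algebraMap S (AdicCompletion (maximalIdeal S) S)) ≠ ⊤ := by
    intro hT
    rw [hT, top_le_iff] at hle
    exact (maximalIdeal.isMaximal (AdicCompletion (maximalIdeal S) S)).ne_top hle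
  have hpd' := G1_quot (L := S) (S := AdicCompletion (maximalIdeal S) S) I n hpd
  obtain ⟨h', hb', hval⟩ := G2_up (S := AdicCompletion (maximalIdeal S) S) I h hb
  obtain ⟨i, y', a', ha', hy'⟩ := U6A_unit m π hπ
    (I.map (algebraMap S (AdicCompletion (maximalIdeal S) S))) hIC n hpd' r h' hb'
  by_contra hno
  have key : ∀ (z : AdicCompletion (maximalIdeal S) S)
      (hz : z ∈ I.map (algebraMap S (AdicCompletion (maximalIdeal S) S))),
      ∃ c ∈ maximalIdeal (AdicCompletion (maximalIdeal S) S),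
        h' i ⟨z, hz⟩ = Submodule.Quotient.mk c := by
    intro z hz
    refine Submodule.span_induction
      (p := fun z hz => ∃ c ∈ maximalIdeal (AdicCompletion (maximalIdeal S) S),
        h' i ⟨z, hz⟩ = Submodule.Quotient.mk c) ?_ ?_ ?_ ?_ hz
    · rintro _ ⟨y, hy, rfl⟩
      obtain ⟨a, ha⟩ := Submodule.Quotient.mk_surjective _ (h i ⟨y, hy⟩)
      refine ⟨algebraMap S _ a, ?_, hval i ⟨y, hy⟩ a ha.symm⟩
      have hna : a ∈ maximalIdeal S := by
        rw [mem_maximalIdeal, mem_nonunits_iff]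
        intro hu
        exact hno ⟨i, ⟨y, hy⟩, a, hu, ha.symm⟩
      rw [AdicCompletion.maximalIdeal_eq_map]
      exact Ideal.mem_map_of_mem _ hna
    · exact ⟨0, Submodule.zero_mem _, (h' i).map_zero⟩
    · rintro x y hx hy ⟨c, hc, hc'⟩ ⟨d, hd, hd'⟩
      refine ⟨c + d, Submodule.add_mem _ hc hd, ?_⟩
      have h1 : h' i ⟨x + y, Submodule.add_mem _ hx hy⟩ = h' i ⟨x, hx⟩ + h' i ⟨y, hy⟩ :=
        (h' i).map_add ⟨x, hx⟩ ⟨y, hy⟩
      rw [h1, hc', hd']
      rfl
    · rintro s x hx ⟨c, hc, hc'⟩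
      refine ⟨s • c, Submodule.smul_mem _ s hc, ?_⟩
      have h1 : h' i ⟨s • x, Submodule.smul_mem _ s hx⟩ = s • h' i ⟨x, hx⟩ :=
        (h' i).map_smul s ⟨x, hx⟩
      rw [h1, hc']
      rfl
  obtain ⟨c, hc, hcy⟩ := key y' y'.2
  have h2 : a' - c ∈ I.map (algebraMap S (AdicCompletion (maximalIdeal S) S)) := by
    refine (Submodule.Quotient.eq _).1 ?_
    rw [← hy', ← hcy]
  have h3 : a' ∈ maximalIdeal (AdicCompletion (maximalIdeal S) S) := by
    have h4 := Submodule.add_mem _ (hle h2) hc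
    rwa [sub_add_cancel] at h4
  exact (mem_maximalIdeal a').1 h3 ha'

end Pool.Agent.Lib.H78D
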