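import Pool.Agent.Lib.H78D.VX

/-!
# VL (M): functionals on `I` in terms of matrices

`f : P → S` surjective with kernel `(j)`, `I = (f g_1, .., f g_b)`, `A` = relations of the `f g_k`.
`VL_mem`: `x ∈ (j, g)` iff `f x ∈ I`: `→` clear; `←`: `f x = ∑ s_k f (g k)`, lift the `s_k`, `x - ∑ s_k g_k` in the
kernel.  (range of `Fin.append j g` = union of the ranges: `Fin.append_left`, `Fin.append_right`,
`Fin.addCases`.)
`VL_fun`: `←`: the column `q` of `A` is a relation: `∑_k A_{kq} g_k ∈ (j)` (e1.1), so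
`0 = ψ (∑ f (A_{kq}) • f g_k) = ∑ f (A_{kq}) mk (f (v k)) = mk (f (∑ A_{kq} v_k))`, so `f (..) ∈ I`, VL_mem.
`→`: define `ψ (∑ s_k f g_k) = mk (∑ s_k f (v k))`.  Well defined: if `∑ s_k f g_k = 0`, lift `s` to `w` over
`P`; `∑ w_k g_k ∈ (j)`, so by e1.2 `w = A u` modulo `(j)`, so `∑ w_k v_k = ∑_q u_q (A^T v)_q` modulo `(j)` lies in
`(j, g)`.  Formally: the map `Φ : (Fin b → S) →ₗ I`, `s ↦ ∑ s_k f g_k` is surjective
(`Submodule.mem_span_range_iff_exists_fun` / `Ideal.mem_span_range_iff_exists_fun`), its kernel lies in the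
kernel of `Ψ : s ↦ mk (∑ s_k f (v k))`, and `ψ = Ψ` descended (`LinearMap.exists_extend`.. no: use
`(LinearMap.ker Φ).liftQ Ψ h` and `Φ.quotKerEquivOfSurjective`).
-/

set_option autoImplicit false
open CategoryTheory IsLocalRing TensorProduct
open Pool.Agent.Lib.Helper92 Pool.Agent.Lib.H44V Pool.Agent.Lib.H78C Pool.Agent.Lib.H61E

namespace Pool.Agent.Lib.H78D
universe u

private theorem VL_append {P : Type u} [CommRing P] {a b : ℕ} (j : Fin a → P) (g : Fin b → P) :
    sp (Fin.append j g) = sp j ⊔ Ideal.span (Set.range g) := by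
  unfold sp
  rw [← Ideal.span_union]
  congr 1
  ext y
  constructor
  · rintro ⟨i, rfl⟩
    refine Fin.addCases (fun i => ?_) (fun i => ?_) i
    · left; exact ⟨i, (Fin.append_left j g i).symm⟩
    · right; exact ⟨i, (Fin.append_right j g i).symm⟩
  · rintro (⟨i, rfl⟩ | ⟨i, rfl⟩)
    · exact ⟨Fin.castAdd b i, Fin.append_left j g i⟩
    · exact ⟨Fin.natAdd a i, Fin.append_right j g i⟩

theorem VL_mem {P S : Type u} [CommRing P] [CommRing S] (f : P →+* S)
    (hf : Function.Surjective f) {a b : ℕ} (j : Fin a → P) (g : Fin b → P)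
    (hj : RingHom.ker f = sp j) (I : Ideal S)
    (hI : Ideal.span (Set.range fun k => f (g k)) = I) (x : P) :
    x ∈ sp (Fin.append j g) ↔ f x ∈ I := by
  have h1 : I = Ideal.map f (Ideal.span (Set.range g)) := by
    rw [Ideal.map_span, ← hI]
    congr 1
    ext y
    simp
  have h2 : Ideal.comap f I = Ideal.span (Set.range g) ⊔ RingHom.ker f := by
    rw [h1, Ideal.comap_map_of_surjective f hf]
    rfl
  rw [← Ideal.mem_comap, h2, hj, VL_append, sup_comm]

private theorem VL_lift {S M N Q : Type*} [CommRing S] [AddCommGroup M] [Module S M]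
    [AddCommGroup N] [Module S N] [AddCommGroup Q] [Module S Q] (Φ : M →ₗ[S] N)
    (hΦ : Function.Surjective Φ) (Ψ : M →ₗ[S] Q) (h : ∀ s, Φ s = 0 → Ψ s = 0) :
    ∃ ψ : N →ₗ[S] Q, ∀ s, ψ (Φ s) = Ψ s := by
  refine ⟨((LinearMap.ker Φ).liftQ Ψ (fun s hs => h s hs)).comp
    (Φ.quotKerEquivOfSurjective hΦ).symm.toLinearMap, fun s => ?_⟩
  have h1 : (Φ.quotKerEquivOfSurjective hΦ).symm (Φ s) = (LinearMap.ker Φ).mkQ s := by
    rw [LinearEquiv.symm_apply_eq]
    rfl
  rw [LinearMap.comp_apply]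
  have h2 : (Φ.quotKerEquivOfSurjective hΦ).symm.toLinearMap (Φ s) = (LinearMap.ker Φ).mkQ s := h1
  rw [h2]
  rfl

theorem VL_fun {P S : Type u} [CommRing P] [CommRing S] (f : P →+* S)
    (hf : Function.Surjective f) {a b c : ℕ} (j : Fin a → P) (g : Fin b → P)
    (A : Matrix (Fin b) (Fin c) P) (hj : RingHom.ker f = sp j) (I : Ideal S)
    (hI : Ideal.span (Set.range fun k => f (g k)) = I) (e1 : Ex (sp j) A (row1 g))
    (v : Fin b → P) :
    (∀ q, (A.transpose.mulVec v) q ∈ sp (Fin.append j g)) ↔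
      ∃ ψ : I →ₗ[S] (S ⧸ I), ∀ (k : Fin b) (hk : f (g k) ∈ I),
        ψ ⟨f (g k), hk⟩ = Submodule.Quotient.mk (f (v k)) := by
  classical
  have hgI : ∀ k, f (g k) ∈ I := fun k => by
    rw [← hI]; exact Ideal.subset_span ⟨k, rfl⟩
  have hker : ∀ x, x ∈ sp j ↔ f x = 0 := fun x => by rw [← hj, RingHom.mem_ker]
  have hT : ∀ q, (A.transpose.mulVec v) q = ∑ k, A k q * v k := fun q => rfl
  constructor
  · intro hA
    let Φ : (Fin b → S) →ₗ[S] I := Fintype.linearCombination S (fun k => (⟨f (g k), hgI k⟩ : I))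
    let Ψ : (Fin b → S) →ₗ[S] (S ⧸ I) :=
      Fintype.linearCombination S (fun k => (I.mkQ (f (v k)) : S ⧸ I))
    have hΦ : ∀ s, ((Φ s : I) : S) = ∑ k, s k * f (g k) := by
      intro s
      simp only [Φ, Fintype.linearCombination_apply, Submodule.coe_sum, Submodule.coe_smul,
        smul_eq_mul]
    have hΨ : ∀ s, Ψ s = I.mkQ (∑ k, s k * f (v k)) := by
      intro s
      simp only [Ψ, Fintype.linearCombination_apply, map_sum]
      refine Finset.sum_congr rfl fun k _ => ?_
      rw [← smul_eq_mul, map_smul]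
    have hsurj : Function.Surjective Φ := by
      rintro ⟨x, hx⟩
      rw [← hI, Ideal.span, Submodule.mem_span_range_iff_exists_fun] at hx
      obtain ⟨s, hs⟩ := hx
      refine ⟨s, Subtype.ext ?_⟩
      rw [hΦ]
      simpa [smul_eq_mul] using hs
    have hker2 : ∀ s, Φ s = 0 → Ψ s = 0 := by
      intro s hs
      have hs' : ∑ k, s k * f (g k) = 0 := by rw [← hΦ, hs]; rfl
      choose w hw using fun k => hf (s k)
      have hw1 : ∀ i, ((row1 g).mulVec w) i ∈ sp j := by
        intro i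
        rw [hker]
        have e : ((row1 g).mulVec w) i = ∑ k, g k * w k := rfl
        rw [e, map_sum, ← hs']
        refine Finset.sum_congr rfl fun k _ => ?_
        rw [map_mul, hw, mul_comm]
      obtain ⟨u, hu⟩ := e1.2 w hw1
      have hmem : ∑ k, w k * v k ∈ sp (Fin.append j g) := by
        have e : ∑ k, w k * v k = ∑ k, (w k - (A.mulVec u) k) * v k +
            ∑ q, u q * (A.transpose.mulVec v) q := by
          have e3 : ∑ q, u q * (A.transpose.mulVec v) q = ∑ k, (A.mulVec u) k * v k := by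
            have e4 : ∀ k, (A.mulVec u) k = ∑ q, A k q * u q := fun k => rfl
            simp only [hT, e4, Finset.mul_sum, Finset.sum_mul]
            rw [Finset.sum_comm]
            refine Finset.sum_congr rfl fun k _ => Finset.sum_congr rfl fun q _ => ?_
            ring
          rw [e3, ← Finset.sum_add_distrib]
          refine Finset.sum_congr rfl fun k _ => ?_
          ring
        rw [e]
        refine Ideal.add_mem _ (Ideal.sum_mem _ fun k _ => Ideal.mul_mem_right _ _ ?_)
          (Ideal.sum_mem _ fun q _ => Ideal.mul_mem_left _ _ (hA q))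
        have : sp j ≤ sp (Fin.append j g) := by
          rw [VL_append]; exact le_sup_left
        exact this (hu k)
      rw [VL_mem f hf j g hj I hI, map_sum] at hmem
      rw [hΨ, Submodule.mkQ_apply, Submodule.Quotient.mk_eq_zero]
      refine (congrArg (· ∈ I) ?_).mp hmem
      refine Finset.sum_congr rfl fun k _ => ?_
      rw [map_mul, hw]
    obtain ⟨ψ, hψ⟩ := VL_lift Φ hsurj Ψ hker2
    refine ⟨ψ, fun k hk => ?_⟩
    have h1 : (⟨f (g k), hk⟩ : I) = Φ (Pi.single k 1) := by
      apply Subtype.ext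
      rw [hΦ]
      simp [Pi.single_apply]
    have h2 : Ψ (Pi.single k 1) = I.mkQ (f (v k)) := by
      rw [hΨ]
      simp [Pi.single_apply]
    rw [h1, hψ, h2]
    rfl
  · rintro ⟨ψ, hψ⟩ q
    rw [VL_mem f hf j g hj I hI, hT, map_sum]
    have hc : ∑ k, f (A k q) * f (g k) = 0 := by
      have h1 : (row1 g * A) 0 q ∈ sp j := e1.1 0 q
      rw [hker] at h1
      have e : (row1 g * A) 0 q = ∑ k, g k * A k q := rfl
      rw [e, map_sum] at h1
      rw [← h1]
      refine Finset.sum_congr rfl fun k _ => ?_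
      rw [map_mul, mul_comm]
    have hz : ∑ k, f (A k q) • (⟨f (g k), hgI k⟩ : I) = 0 := by
      apply Subtype.ext
      rw [Submodule.coe_sum]
      simpa [smul_eq_mul] using hc
    have h2 : ψ (∑ k, f (A k q) • (⟨f (g k), hgI k⟩ : I)) = I.mkQ (∑ k, f (A k q) * f (v k)) := by
      rw [map_sum, map_sum]
      refine Finset.sum_congr rfl fun k _ => ?_
      rw [map_smul, hψ k (hgI k), ← smul_eq_mul, map_smul]
      rfl
    rw [hz, map_zero, Submodule.mkQ_apply] at h2
    have h3 := (Submodule.Quotient.mk_eq_zero I).1 h2.symm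
    refine (congrArg (· ∈ I) ?_).mp h3
    refine Finset.sum_congr rfl fun k _ => ?_
    rw [map_mul]

end Pool.Agent.Lib.H78D
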