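import Pool.Agent.Lib.H78D.Defs

/-!
# VX (S): exactness modulo `(j)` is exactness over `S = P/(j)`

PROOF.  `x ∈ sp j ↔ f x = 0` (`hj`).  `f` maps `(E * D) i k` to `((E.map f) * (D.map f)) i k`
(`Matrix.map_mul` or RingHom.map_matrix_mul), and `(E.mulVec v) i` to `((E.map f).mulVec (f ∘ v)) i`
(`RingHom.map_mulVec`).  Complex: range ≤ ker iff all the products vanish (evaluate at `Pi.single k 1`, or
`Matrix.mulVecLin_mul`, `mulVecLin = 0`).  Exact: lift vectors over `S` to `P` componentwise (`hf`).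
-/

set_option autoImplicit false
open CategoryTheory IsLocalRing TensorProduct
open Pool.Agent.Lib.Helper92 Pool.Agent.Lib.H44V Pool.Agent.Lib.H78C Pool.Agent.Lib.H61E

namespace Pool.Agent.Lib.H78D
universe u

theorem VX_iff {P S : Type u} [CommRing P] [CommRing S] (f : P →+* S)
    (hf : Function.Surjective f) {d : ℕ} (j : Fin d → P) (hj : RingHom.ker f = sp j) {a b c : ℕ}
    (D : Matrix (Fin b) (Fin a) P) (E : Matrix (Fin c) (Fin b) P) :
    Ex (sp j) D E ↔ LinearMap.range (Matrix.mulVecLin (D.map f)) =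
      LinearMap.ker (Matrix.mulVecLin (E.map f)) := by
  have hm : ∀ x : P, x ∈ sp j ↔ f x = 0 := fun x => by rw [← hj, RingHom.mem_ker]
  have hE : ∀ {p q : ℕ} (M : Matrix (Fin p) (Fin q) P) (v : Fin q → P) (i : Fin p),
      (M.map f).mulVec (fun k => f (v k)) i = f (M.mulVec v i) := by
    intro p q M v i
    simp only [Matrix.mulVec, dotProduct, Matrix.map_apply, map_sum, map_mul]
  have hlift : ∀ {q : ℕ} (w : Fin q → S), ∃ v : Fin q → P, (fun k => f (v k)) = w := by
    intro q w
    exact ⟨fun k => (hf (w k)).choose, funext fun k => (hf (w k)).choose_spec⟩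
  have hcomp : (∀ i k, (E * D) i k ∈ sp j) ↔ LinearMap.range (Matrix.mulVecLin (D.map f)) ≤
      LinearMap.ker (Matrix.mulVecLin (E.map f)) := by
    have h1 : ∀ i k, ((E.map f) * (D.map f)) i k = f ((E * D) i k) := by
      intro i k
      simp only [Matrix.mul_apply, Matrix.map_apply, map_sum, map_mul]
    rw [LinearMap.range_le_ker_iff, ← Matrix.mulVecLin_mul]
    constructor
    · intro h
      have h2 : (E.map f) * (D.map f) = 0 := by
        ext i k
        rw [h1, (hm _).1 (h i k)]
        rfl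
      rw [h2]
      exact Matrix.mulVecLin_zero
    · intro h i k
      rw [hm, ← h1]
      have h2 := congrFun (LinearMap.congr_fun h (Pi.single k 1)) i
      rw [Matrix.mulVecLin_apply, Matrix.mulVec_single_one] at h2
      exact h2
  constructor
  · rintro ⟨h1, h2⟩
    refine le_antisymm (hcomp.1 h1) ?_
    intro w hw
    obtain ⟨v, rfl⟩ := hlift w
    rw [LinearMap.mem_ker, Matrix.mulVecLin_apply] at hw
    obtain ⟨u, hu⟩ := h2 v fun i => by
      rw [hm, ← hE, hw]
      rfl
    refine ⟨fun k => f (u k), ?_⟩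
    rw [Matrix.mulVecLin_apply]
    funext i
    have h3 := (hm _).1 (hu i)
    rw [map_sub, sub_eq_zero] at h3
    rw [hE]
    exact h3.symm
  · intro h
    refine ⟨hcomp.2 h.le, ?_⟩
    intro v hv
    have h3 : (fun k => f (v k)) ∈ LinearMap.range (Matrix.mulVecLin (D.map f)) := by
      rw [h, LinearMap.mem_ker, Matrix.mulVecLin_apply]
      funext i
      rw [hE, (hm _).1 (hv i)]
      rfl
    obtain ⟨w, hw⟩ := h3
    obtain ⟨u, rfl⟩ := hlift w
    refine ⟨u, fun i => ?_⟩
    rw [Matrix.mulVecLin_apply] at hw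
    have h4 := congrFun hw i
    rw [hE] at h4
    rw [hm, map_sub, h4, sub_self]

end Pool.Agent.Lib.H78D
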